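import Mathlib

/-!
# Oscillating integrals with some derivative of the phase large at every point
-/

set_option autoImplicit false

namespace Pool.Agent.Y933.KI

open Set MeasureTheory intervalIntegral

/-- first derivative test, without monotonicity -/
lemma fdt {θ θ' θ'' : ℝ → ℝ} {p q m M : ℝ} (hpq : p ≤ q)
    (h1 : ∀ x ∈ Icc p q, HasDerivAt θ (θ' x) x) (h2 : ∀ x ∈ Icc p q, HasDerivAt θ' (θ'' x) x)
    (hc : ContinuousOn θ'' (Icc p q)) (hm : 0 < m) (hl : ∀ x ∈ Icc p q, m ≤ |θ' x|)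
    (hM : ∀ x ∈ Icc p q, |θ'' x| ≤ M) :
    |∫ x in p..q, Real.cos (θ x)| ≤ 2 / m + M / m ^ 2 * (q - p) := by
  have hne : ∀ x ∈ Icc p q, θ' x ≠ 0 := by
    intro x hx h0
    have := hl x hx
    rw [h0, abs_zero] at this
    linarith
  have hcθ : ContinuousOn θ (Icc p q) := fun x hx => (h1 x hx).continuousAt.continuousWithinAt
  have hcθ' : ContinuousOn θ' (Icc p q) := fun x hx => (h2 x hx).continuousAt.continuousWithinAt
  have hG : ∀ x ∈ Icc p q, HasDerivAt (fun x => Real.sin (θ x) / θ' x)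
      (Real.cos (θ x) - Real.sin (θ x) * θ'' x / θ' x ^ 2) x := by
    intro x hx
    have h3 := ((h1 x hx).sin).div (h2 x hx) (hne x hx)
    refine h3.congr_deriv ?_
    have := hne x hx
    field_simp
  have hi1 : ContinuousOn (fun x => Real.cos (θ x)) (Icc p q) :=
    Real.continuous_cos.comp_continuousOn hcθ
  have hi2 : ContinuousOn (fun x => Real.sin (θ x) * θ'' x / θ' x ^ 2) (Icc p q) := by
    refine ContinuousOn.div ?_ (hcθ'.pow 2) (fun x hx => pow_ne_zero 2 (hne x hx))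
    exact (Real.continuous_sin.comp_continuousOn hcθ).mul hc
  have hu : uIcc p q = Icc p q := uIcc_of_le hpq
  have ii1 : IntervalIntegrable (fun x => Real.cos (θ x)) volume p q := by
    apply ContinuousOn.intervalIntegrable
    rw [hu]
    exact hi1
  have ii2 : IntervalIntegrable (fun x => Real.sin (θ x) * θ'' x / θ' x ^ 2) volume p q := by
    apply ContinuousOn.intervalIntegrable
    rw [hu]
    exact hi2
  have key : ∫ x in p..q, (Real.cos (θ x) - Real.sin (θ x) * θ'' x / θ' x ^ 2) =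
      Real.sin (θ q) / θ' q - Real.sin (θ p) / θ' p := by
    apply integral_eq_sub_of_hasDerivAt
    · intro x hx
      rw [hu] at hx
      exact hG x hx
    · exact ii1.sub ii2
  rw [intervalIntegral.integral_sub ii1 ii2] at key
  have e1 : ∫ x in p..q, Real.cos (θ x) = Real.sin (θ q) / θ' q - Real.sin (θ p) / θ' p +
      ∫ x in p..q, Real.sin (θ x) * θ'' x / θ' x ^ 2 := by linarith
  have hb : ∀ x ∈ Icc p q, |Real.sin (θ x) / θ' x| ≤ 1 / m := by
    intro x hx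
    rw [abs_div]
    exact div_le_div₀ zero_le_one (Real.abs_sin_le_one _) hm (hl x hx)
  have hb2 : |∫ x in p..q, Real.sin (θ x) * θ'' x / θ' x ^ 2| ≤ M / m ^ 2 * (q - p) := by
    have h3 : ∀ x ∈ Set.uIoc p q, ‖Real.sin (θ x) * θ'' x / θ' x ^ 2‖ ≤ M / m ^ 2 := by
      intro x hx
      rw [uIoc_of_le hpq] at hx
      have hx2 : x ∈ Icc p q := ⟨hx.1.le, hx.2⟩
      rw [Real.norm_eq_abs, abs_div, abs_mul, abs_pow]
      have hM0 : 0 ≤ M := (abs_nonneg _).trans (hM x hx2)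
      refine div_le_div₀ hM0 ?_ (by positivity) (pow_le_pow_left₀ hm.le (hl x hx2) 2)
      calc |Real.sin (θ x)| * |θ'' x| ≤ 1 * M :=
            mul_le_mul (Real.abs_sin_le_one _) (hM x hx2) (abs_nonneg _) zero_le_one
        _ = M := one_mul M
    have h4 := norm_integral_le_of_norm_le_const h3
    rwa [Real.norm_eq_abs, abs_of_nonneg (by linarith : 0 ≤ q - p)] at h4
  rw [e1]
  have h5 := hb q ⟨hpq, le_rfl⟩
  have h6 := hb p ⟨le_rfl, hpq⟩
  calc |Real.sin (θ q) / θ' q - Real.sin (θ p) / θ' p +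
      ∫ x in p..q, Real.sin (θ x) * θ'' x / θ' x ^ 2| ≤
      |Real.sin (θ q) / θ' q| + |Real.sin (θ p) / θ' p| +
      |∫ x in p..q, Real.sin (θ x) * θ'' x / θ' x ^ 2| := by
        refine (abs_add_le _ _).trans ?_
        gcongr
        exact abs_sub _ _
    _ ≤ 1 / m + 1 / m + M / m ^ 2 * (q - p) := by gcongr
    _ = _ := by ring

/-- A chain of functions, each the derivative of the preceding one up to a constant. -/
structure Chain (D : ℕ → ℝ → ℝ) (κ : ℕ → ℝ) (θ : ℝ → ℝ) (R : ℕ) (κ0 κ1 U T : ℝ) : Prop where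
  hR : 1 ≤ R
  hκ0 : 0 < κ0
  hκ0' : κ0 ≤ 1
  hκ1 : 1 ≤ κ1
  hU : 1 ≤ U
  hT : 1 ≤ T
  lo : ∀ i, i < R → κ0 ≤ |κ i|
  up : ∀ i, i < R → |κ i| ≤ κ1
  bd : ∀ i, i ≤ R → ∀ x ∈ Icc (0 : ℝ) 1, |D i x| ≤ U
  der : ∀ i, i ≤ R → ∀ x ∈ Icc (0 : ℝ) 1, HasDerivAt (D i) (κ i * D (i + 1) x) x
  ph : ∀ x ∈ Icc (0 : ℝ) 1, HasDerivAt θ (2 * Real.pi * T * D 0 x) x

variable {D : ℕ → ℝ → ℝ} {κ : ℕ → ℝ} {θ : ℝ → ℝ} {R : ℕ} {κ0 κ1 U T : ℝ}

/-- the bound -/
noncomputable def bb (κ0 κ1 U T ρ : ℝ) (i : ℕ) (μ : ℝ) : ℝ :=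
  2 ^ i * ((1 + κ1 * U) / (T * ((κ0 * ρ) ^ i * μ) ^ 2)) + (2 ^ i - 1) * (2 * ρ)

lemma cont_D (h : Chain D κ θ R κ0 κ1 U T) {i : ℕ} (hi : i ≤ R) : ContinuousOn (D i) (Icc 0 1) :=
  fun x hx => (h.der i hi x hx).continuousAt.continuousWithinAt

lemma cont_θ (h : Chain D κ θ R κ0 κ1 U T) : ContinuousOn θ (Icc 0 1) :=
  fun x hx => (h.ph x hx).continuousAt.continuousWithinAt

lemma ii_cos (h : Chain D κ θ R κ0 κ1 U T) {p q : ℝ} (hp : 0 ≤ p) (hpq : p ≤ q) (hq : q ≤ 1) :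
    IntervalIntegrable (fun x => Real.cos (θ x)) volume p q := by
  apply ContinuousOn.intervalIntegrable
  rw [uIcc_of_le hpq]
  exact Real.continuous_cos.comp_continuousOn ((cont_θ h).mono (Icc_subset_Icc hp hq))

lemma triv_cos {p q : ℝ} (hpq : p ≤ q) : |∫ x in p..q, Real.cos (θ x)| ≤ q - p := by
  have h3 : ∀ x ∈ Set.uIoc p q, ‖Real.cos (θ x)‖ ≤ 1 := fun x _ => Real.abs_cos_le_one _
  have h4 := norm_integral_le_of_norm_le_const h3
  rw [Real.norm_eq_abs, abs_of_nonneg (by linarith : 0 ≤ q - p)] at h4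
  linarith

lemma base (h : Chain D κ θ R κ0 κ1 U T) (ρ : ℝ) {p q μ : ℝ} (hp : 0 ≤ p)
    (hpq : p ≤ q) (hq : q ≤ 1) (hμ : 0 < μ) (hμ1 : μ ≤ 1) (hl : ∀ x ∈ Icc p q, μ ≤ |D 0 x|) :
    |∫ x in p..q, Real.cos (θ x)| ≤ bb κ0 κ1 U T ρ 0 μ := by
  have hsub : Icc p q ⊆ Icc (0 : ℝ) 1 := Icc_subset_Icc hp hq
  have hT := h.hT
  have hU := h.hU
  have hκ1 := h.hκ1
  have hR := h.hR
  have hpi := Real.pi_gt_three
  have key := fdt (θ := θ) (θ' := fun x => 2 * Real.pi * T * D 0 x)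
    (θ'' := fun x => 2 * Real.pi * T * (κ 0 * D 1 x)) (p := p) (q := q) (m := 2 * Real.pi * T * μ)
    (M := 2 * Real.pi * T * (κ1 * U)) hpq (fun x hx => h.ph x (hsub hx))
    (fun x hx => (h.der 0 (by omega) x (hsub hx)).const_mul _)
    (by
      have := (cont_D h hR).mono hsub
      fun_prop) (by positivity)
    (fun x hx => by
      rw [abs_mul, abs_of_pos (by positivity : 0 < 2 * Real.pi * T)]
      have := hl x hx
      gcongr)
    (fun x hx => by
      rw [abs_mul, abs_of_pos (by positivity : 0 < 2 * Real.pi * T), abs_mul]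
      have h1 := h.up 0 (by omega)
      have h2 := h.bd 1 hR x (hsub hx)
      gcongr)
  refine key.trans ?_
  rw [bb, pow_zero, one_mul, pow_zero, one_mul, sub_self, zero_mul, add_zero]
  have e1 : 2 / (2 * Real.pi * T * μ) ≤ 1 / (T * μ ^ 2) := by
    rw [div_le_div_iff₀ (by positivity) (by positivity)]
    have : 2 * (T * μ ^ 2) = 2 * μ * (T * μ) := by ring
    rw [this, one_mul]
    have h5 : 0 < T * μ := by positivity
    calc 2 * μ * (T * μ) ≤ 2 * 1 * (T * μ) := by gcongr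
      _ ≤ 2 * Real.pi * (T * μ) := by gcongr; linarith
      _ = 2 * Real.pi * T * μ := by ring
  have e2 : 2 * Real.pi * T * (κ1 * U) / (2 * Real.pi * T * μ) ^ 2 * (q - p) ≤
      κ1 * U / (T * μ ^ 2) := by
    have e3 : 2 * Real.pi * T * (κ1 * U) / (2 * Real.pi * T * μ) ^ 2 =
        κ1 * U / (T * μ ^ 2) / (2 * Real.pi) := by
      field_simp
    rw [e3]
    have h6 : 0 ≤ κ1 * U / (T * μ ^ 2) := by positivity
    have h7 : κ1 * U / (T * μ ^ 2) / (2 * Real.pi) ≤ κ1 * U / (T * μ ^ 2) := by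
      apply div_le_self h6
      linarith
    calc κ1 * U / (T * μ ^ 2) / (2 * Real.pi) * (q - p) ≤ κ1 * U / (T * μ ^ 2) * 1 := by
          apply mul_le_mul h7 (by linarith) (by linarith) h6
      _ = _ := mul_one _
  calc 2 / (2 * Real.pi * T * μ) + 2 * Real.pi * T * (κ1 * U) / (2 * Real.pi * T * μ) ^ 2 * (q - p)
      ≤ 1 / (T * μ ^ 2) + κ1 * U / (T * μ ^ 2) := add_le_add e1 e2
    _ = (1 + κ1 * U) / (T * μ ^ 2) := by rw [add_div]

lemma sign_D (h : Chain D κ θ R κ0 κ1 U T) {i : ℕ} (hi : i + 1 ≤ R) {p q μ : ℝ} (hp : 0 ≤ p)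
    (hq : q ≤ 1) (hμ : 0 < μ) (hl : ∀ x ∈ Icc p q, μ ≤ |D (i + 1) x|) :
    ∃ σ : ℝ, (σ = 1 ∨ σ = -1) ∧ ∀ x ∈ Icc p q, κ0 * μ ≤ σ * (κ i * D (i + 1) x) := by
  have hsub : Icc p q ⊆ Icc (0 : ℝ) 1 := Icc_subset_Icc hp hq
  have hc : ContinuousOn (fun x => κ i * D (i + 1) x) (Icc p q) := by
    have := (cont_D h hi).mono hsub
    fun_prop
  have hlow : ∀ x ∈ Icc p q, κ0 * μ ≤ |κ i * D (i + 1) x| := by
    intro x hx
    rw [abs_mul]
    exact mul_le_mul (h.lo i (by omega)) (hl x hx) hμ.le (abs_nonneg _)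
  have hpos : 0 < κ0 * μ := mul_pos h.hκ0 hμ
  by_cases h1 : ∀ x ∈ Icc p q, κ0 * μ ≤ κ i * D (i + 1) x
  · exact ⟨1, Or.inl rfl, fun x hx => by rw [one_mul]; exact h1 x hx⟩
  · push Not at h1
    obtain ⟨x, hx, hx2⟩ := h1
    have h3 : κ i * D (i + 1) x ≤ -(κ0 * μ) := by
      rcases le_abs'.mp (hlow x hx) with h4 | h4
      · exact h4
      · linarith
    refine ⟨-1, Or.inr rfl, fun y hy => ?_⟩
    rcases le_abs'.mp (hlow y hy) with h4 | h4
    · linarith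
    · exfalso
      have h6 := isPreconnected_Icc.intermediate_value hx hy hc
      have h7 : (0 : ℝ) ∈ Icc (κ i * D (i + 1) x) (κ i * D (i + 1) y) := ⟨by linarith, by linarith⟩
      obtain ⟨z, hz, hz2⟩ := h6 h7
      have h8 := hlow z hz
      simp only at hz2
      rw [hz2, abs_zero] at h8
      linarith

lemma stepR (h : Chain D κ θ R κ0 κ1 U T) {ρ : ℝ} (hρ : 0 < ρ) {p q s Bd : ℝ} (hp : 0 ≤ p)
    (hpq : p ≤ q) (hq : q ≤ 1) (hs : 0 < s) (hBd : 0 ≤ Bd) (i : ℕ)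
    (hl : ∀ x ∈ Icc p q, p < x → s * (x - p) ≤ |D i x|)
    (hyp : ∀ p' q', p ≤ p' → p' ≤ q' → q' ≤ q → (∀ x ∈ Icc p' q', s * ρ ≤ |D i x|) →
      |∫ x in p'..q', Real.cos (θ x)| ≤ Bd) :
    |∫ x in p..q, Real.cos (θ x)| ≤ ρ + Bd := by
  rcases le_or_gt q (p + ρ) with h1 | h1
  · have := triv_cos (θ := θ) hpq
    linarith
  · rw [← integral_add_adjacent_intervals (ii_cos h hp (by linarith : p ≤ p + ρ) (by linarith))
      (ii_cos h (by linarith : 0 ≤ p + ρ) h1.le hq)]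
    have h2 := triv_cos (θ := θ) (by linarith : p ≤ p + ρ)
    have h3 := hyp (p + ρ) q (by linarith) h1.le le_rfl (fun x hx => by
      refine le_trans ?_ (hl x ⟨by linarith [hx.1], hx.2⟩ (by linarith [hx.1]))
      have : ρ ≤ x - p := by linarith [hx.1]
      gcongr)
    refine (abs_add_le _ _).trans ?_
    linarith

lemma stepL (h : Chain D κ θ R κ0 κ1 U T) {ρ : ℝ} (hρ : 0 < ρ) {p q s Bd : ℝ} (hp : 0 ≤ p)
    (hpq : p ≤ q) (hq : q ≤ 1) (hs : 0 < s) (hBd : 0 ≤ Bd) (i : ℕ)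
    (hl : ∀ x ∈ Icc p q, x < q → s * (q - x) ≤ |D i x|)
    (hyp : ∀ p' q', p ≤ p' → p' ≤ q' → q' ≤ q → (∀ x ∈ Icc p' q', s * ρ ≤ |D i x|) →
      |∫ x in p'..q', Real.cos (θ x)| ≤ Bd) :
    |∫ x in p..q, Real.cos (θ x)| ≤ ρ + Bd := by
  rcases le_or_gt (q - ρ) p with h1 | h1
  · have := triv_cos (θ := θ) hpq
    linarith
  · rw [← integral_add_adjacent_intervals (ii_cos h hp h1.le (by linarith))
      (ii_cos h (by linarith : 0 ≤ q - ρ) (by linarith : q - ρ ≤ q) hq)]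
    have h2 := triv_cos (θ := θ) (by linarith : q - ρ ≤ q)
    have h3 := hyp p (q - ρ) le_rfl h1.le (by linarith) (fun x hx => by
      refine le_trans ?_ (hl x ⟨hx.1, by linarith [hx.2]⟩ (by linarith [hx.2]))
      have : ρ ≤ q - x := by linarith [hx.2]
      gcongr)
    refine (abs_add_le _ _).trans ?_
    linarith

/-- the integral when one derivative is large -/
lemma vdk (h : Chain D κ θ R κ0 κ1 U T) {ρ : ℝ} (hρ : 0 < ρ) (hρ1 : ρ ≤ 1) (i : ℕ) (hi : i < R) :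
    ∀ p q μ : ℝ, 0 ≤ p → p ≤ q → q ≤ 1 → 0 < μ → μ ≤ 1 → (∀ x ∈ Icc p q, μ ≤ |D i x|) →
    |∫ x in p..q, Real.cos (θ x)| ≤ bb κ0 κ1 U T ρ i μ := by
  have hκ0 := h.hκ0
  have hκ0' := h.hκ0'
  have hκ1 := h.hκ1
  have hU := h.hU
  have hT := h.hT
  induction i with
  | zero =>
    intro p q μ hp hpq hq hμ hμ1 hl
    exact base h ρ hp hpq hq hμ hμ1 hl
  | succ i ih =>
    intro p q μ hp hpq hq hμ hμ1 hl
    have ih' := ih (by omega)
    obtain ⟨σ, hσ, hσ2⟩ := sign_D h hi.le hp hq hμ hl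
    set s := κ0 * μ with hs
    have hs0 : 0 < s := by positivity
    have hsub : Icc p q ⊆ Icc (0 : ℝ) 1 := Icc_subset_Icc hp hq
    -- growth of the preceding function
    have hgr : ∀ x ∈ Icc p q, ∀ y ∈ Icc p q, x < y → s * (y - x) ≤ σ * D i y - σ * D i x := by
      intro x hx y hy hxy
      obtain ⟨z, hz, hz2⟩ := exists_hasDerivAt_eq_slope (fun x => σ * D i x)
        (fun x => σ * (κ i * D (i + 1) x)) hxy
        (fun t ht => ((h.der i (by omega) t (hsub ⟨hx.1.trans ht.1, ht.2.trans hy.2⟩)).const_mul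
          σ).continuousAt.continuousWithinAt)
        (fun t ht => (h.der i (by omega) t (hsub ⟨hx.1.trans ht.1.le, ht.2.le.trans hy.2⟩)).const_mul σ)
      have h3 := hσ2 z ⟨hx.1.trans hz.1.le, hz.2.le.trans hy.2⟩
      have h4 : 0 < y - x := by linarith
      rw [hz2, le_div_iff₀ h4] at h3
      exact h3
    have habs : ∀ x, |σ * D i x| = |D i x| := by
      intro x
      rcases hσ with rfl | rfl
      · rw [one_mul]
      · rw [neg_one_mul, abs_neg]
    have hcD : ContinuousOn (fun x => σ * D i x) (Icc p q) := by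
      have := (cont_D h (by omega : i ≤ R)).mono hsub
      fun_prop
    -- the point
    obtain ⟨z, hz, hzR, hzL⟩ : ∃ z ∈ Icc p q, (∀ x ∈ Icc z q, z < x → s * (x - z) ≤ |D i x|) ∧
        (∀ x ∈ Icc p z, x < z → s * (z - x) ≤ |D i x|) := by
      rcases le_or_gt 0 (σ * D i p) with h1 | h1
      · refine ⟨p, ⟨le_rfl, hpq⟩, fun x hx hx2 => ?_, fun x hx hx2 => absurd hx2 (not_lt.mpr hx.1)⟩
        have := hgr p ⟨le_rfl, hpq⟩ x hx hx2
        rw [← habs]
        exact le_trans (by linarith) (le_abs_self _)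
      · rcases le_or_gt (σ * D i q) 0 with h2 | h2
        · refine ⟨q, ⟨hpq, le_rfl⟩, fun x hx hx2 => absurd hx2 (not_lt.mpr hx.2), fun x hx hx2 => ?_⟩
          have := hgr x hx q ⟨hpq, le_rfl⟩ hx2
          rw [← habs]
          exact le_trans (by linarith) (neg_le_abs _)
        · have h6 := isPreconnected_Icc.intermediate_value (⟨le_rfl, hpq⟩ : p ∈ Icc p q)
            (⟨hpq, le_rfl⟩ : q ∈ Icc p q) hcD
          have h7 : (0 : ℝ) ∈ Icc (σ * D i p) (σ * D i q) := ⟨h1.le, h2.le⟩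
          obtain ⟨z, hz, hz2⟩ := h6 h7
          simp only at hz2
          refine ⟨z, hz, fun x hx hx2 => ?_, fun x hx hx2 => ?_⟩
          · have := hgr z hz x ⟨hz.1.trans hx.1, hx.2⟩ hx2
            rw [← habs]
            exact le_trans (by linarith) (le_abs_self _)
          · have := hgr x ⟨hx.1, hx.2.trans hz.2⟩ z hz hx2
            rw [← habs]
            exact le_trans (by linarith) (neg_le_abs _)
    have hsρ : s * ρ ≤ 1 := by
      calc s * ρ ≤ 1 * 1 * 1 := by rw [hs]; gcongr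
        _ = 1 := by norm_num
    have hBd0 : 0 ≤ bb κ0 κ1 U T ρ i (s * ρ) := by
      have h1 : (1 : ℝ) ≤ 2 ^ i := one_le_pow₀ (by norm_num)
      have h2 : (0 : ℝ) ≤ 2 ^ i - 1 := by linarith
      unfold bb
      positivity
    have r1 := stepR h hρ (hp.trans hz.1) hz.2 hq hs0 hBd0 i hzR
      (fun p' q' h1 h2 h3 h4 => ih' p' q' (s * ρ) ((hp.trans hz.1).trans h1) h2 (h3.trans hq)
        (by positivity) hsρ h4)
    have r2 := stepL h hρ hp hz.1 (hz.2.trans hq) hs0 hBd0 i hzL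
      (fun p' q' h1 h2 h3 h4 => ih' p' q' (s * ρ) (hp.trans h1) h2 (h3.trans (hz.2.trans hq))
        (by positivity) hsρ h4)
    rw [← integral_add_adjacent_intervals (ii_cos h hp hz.1 (hz.2.trans hq))
      (ii_cos h (hp.trans hz.1) hz.2 hq)]
    refine (abs_add_le _ _).trans ?_
    have e : bb κ0 κ1 U T ρ (i + 1) μ = 2 * bb κ0 κ1 U T ρ i (s * ρ) + 2 * ρ := by
      rw [bb, bb, hs]
      have : (κ0 * ρ) ^ (i + 1) * μ = (κ0 * ρ) ^ i * (κ0 * μ * ρ) := by rw [pow_succ]; ring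
      rw [this, pow_succ]
      ring
    rw [e]
    linarith

/-- The integral over the unit interval. -/
lemma total (h : Chain D κ θ R κ0 κ1 U T) {lam : ℝ} (hl0 : 0 < lam) (hl1 : lam ≤ 1)
    (hl : ∀ x ∈ Icc (0 : ℝ) 1, ∃ i < R, lam ≤ |D i x|) :
    |∫ x in (0 : ℝ)..1, Real.cos (θ x)| ≤
      30 * 2 ^ R * κ1 ^ 2 * U ^ 2 / (κ0 ^ (2 * R) * lam ^ 3) * T ^ (-(1 / (4 * (R : ℝ)))) := by
  have hκ0 := h.hκ0
  have hκ0' := h.hκ0'
  have hκ1 := h.hκ1
  have hU := h.hU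
  have hT := h.hT
  have hR := h.hR
  have hT0 : 0 < T := by linarith
  have hR' : (1 : ℝ) ≤ R := by exact_mod_cast hR
  set ρ : ℝ := T ^ (-(1 / (4 * (R : ℝ)))) with hρ
  have hρ0 : 0 < ρ := Real.rpow_pos_of_pos hT0 _
  have hρ1 : ρ ≤ 1 := Real.rpow_le_one_of_one_le_of_nonpos hT (by
    have : 0 ≤ 1 / (4 * (R : ℝ)) := by positivity
    linarith)
  have hρT : ρ ^ (2 * R) = T ^ (-(1 / 2 : ℝ)) := by
    rw [hρ, ← Real.rpow_natCast, ← Real.rpow_mul hT0.le]
    congr 1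
    push_cast
    field_simp
    norm_num
  have hTρ : T ^ (-(1 / 2 : ℝ)) ≤ ρ := by
    rw [hρ]
    apply Real.rpow_le_rpow_of_exponent_le hT
    apply neg_le_neg
    rw [div_le_div_iff₀ (by positivity) (by norm_num)]
    linarith
  -- the bound for one piece
  set E : ℝ := 10 * 2 ^ R * κ1 * U / (κ0 ^ (2 * R) * lam ^ 2) * ρ with hE
  have hE0 : 0 ≤ E := by rw [hE]; positivity
  have hbb : ∀ i < R, bb κ0 κ1 U T ρ i (lam / 2) ≤ E := by
    intro i hi
    have h1 : (2 : ℝ) ^ i ≤ 2 ^ R := pow_le_pow_right₀ (by norm_num) hi.le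
    have h2 : (κ0 * ρ) ^ R ≤ (κ0 * ρ) ^ i :=
      pow_le_pow_of_le_one (by positivity) (by nlinarith) hi.le
    have h3 : T * ((κ0 * ρ) ^ R * (lam / 2)) ^ 2 ≤ T * ((κ0 * ρ) ^ i * (lam / 2)) ^ 2 := by
      gcongr
    have h4 : T * ((κ0 * ρ) ^ R * (lam / 2)) ^ 2 = κ0 ^ (2 * R) * lam ^ 2 / 4 * T ^ (1 / 2 : ℝ) := by
      have e1 : T * ((κ0 * ρ) ^ R * (lam / 2)) ^ 2 =
          κ0 ^ (2 * R) * lam ^ 2 / 4 * (T * ρ ^ (2 * R)) := by
        rw [mul_pow κ0 ρ R, pow_mul' κ0, pow_mul' ρ]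
        ring
      rw [e1, hρT]
      congr 1
      nth_rewrite 1 [← Real.rpow_one T]
      rw [← Real.rpow_add hT0]
      norm_num
    have h5 : (1 + κ1 * U) / (T * ((κ0 * ρ) ^ i * (lam / 2)) ^ 2) ≤
        8 * κ1 * U / (κ0 ^ (2 * R) * lam ^ 2) * ρ := by
      calc (1 + κ1 * U) / (T * ((κ0 * ρ) ^ i * (lam / 2)) ^ 2) ≤
          (2 * (κ1 * U)) / (T * ((κ0 * ρ) ^ R * (lam / 2)) ^ 2) := by
            apply div_le_div₀ (by positivity) (by nlinarith) (by positivity) h3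
        _ = 8 * κ1 * U / (κ0 ^ (2 * R) * lam ^ 2) * T ^ (-(1 / 2 : ℝ)) := by
            rw [h4, Real.rpow_neg hT0.le]
            field_simp
            norm_num
        _ ≤ 8 * κ1 * U / (κ0 ^ (2 * R) * lam ^ 2) * ρ := by gcongr
    have h6 : (1 : ℝ) ≤ κ1 * U / (κ0 ^ (2 * R) * lam ^ 2) := by
      rw [le_div_iff₀ (by positivity)]
      have h7 : κ0 ^ (2 * R) * lam ^ 2 ≤ 1 * 1 := by
        apply mul_le_mul (pow_le_one₀ hκ0.le hκ0') (pow_le_one₀ hl0.le hl1) (by positivity)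
          zero_le_one
      nlinarith
    rw [bb]
    have h8 : (1 : ℝ) ≤ 2 ^ i := one_le_pow₀ (by norm_num)
    calc 2 ^ i * ((1 + κ1 * U) / (T * ((κ0 * ρ) ^ i * (lam / 2)) ^ 2)) + (2 ^ i - 1) * (2 * ρ)
        ≤ 2 ^ R * (8 * κ1 * U / (κ0 ^ (2 * R) * lam ^ 2) * ρ) +
          2 ^ R * (2 * ((κ1 * U / (κ0 ^ (2 * R) * lam ^ 2)) * ρ)) := by
          apply add_le_add
          · gcongr
          · apply mul_le_mul (by linarith) _ (by positivity) (by positivity)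
            nlinarith
      _ = E := by rw [hE]; ring
  -- subdivision
  set M : ℕ := ⌈2 * κ1 * U / lam⌉₊ with hM
  have hMp : 0 < 2 * κ1 * U / lam := by positivity
  have hM1 : 2 * κ1 * U / lam ≤ M := Nat.le_ceil _
  have hM0 : (0 : ℝ) < M := lt_of_lt_of_le hMp hM1
  have hM2 : (M : ℝ) ≤ 3 * κ1 * U / lam := by
    have h1 : (M : ℝ) < 2 * κ1 * U / lam + 1 := Nat.ceil_lt_add_one hMp.le
    have h2 : 1 ≤ κ1 * U / lam := by
      rw [le_div_iff₀ hl0]
      nlinarith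
    have h3 : 3 * κ1 * U / lam = 2 * κ1 * U / lam + κ1 * U / lam := by ring
    linarith
  have hpiece : ∀ m : ℕ, m < M → |∫ x in ((m : ℝ) / M)..((m + 1 : ℕ) / M : ℝ), Real.cos (θ x)| ≤ E := by
    intro m hm
    have hm' : ((m : ℝ) + 1) ≤ M := by exact_mod_cast hm
    have hp : 0 ≤ (m : ℝ) / M := by positivity
    have hpq : (m : ℝ) / M ≤ ((m + 1 : ℕ) / M : ℝ) := by
      apply div_le_div_of_nonneg_right _ hM0.le
      push_cast
      linarith
    have hq : ((m + 1 : ℕ) / M : ℝ) ≤ 1 := by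
      rw [div_le_one hM0]
      push_cast
      exact hm'
    obtain ⟨i, hi, hi2⟩ := hl ((m : ℝ) / M) ⟨hp, hpq.trans hq⟩
    refine (vdk h hρ0 hρ1 i hi _ _ (lam / 2) hp hpq hq (by positivity) (by linarith) ?_).trans
      (hbb i hi)
    intro x hx
    rcases hx.1.eq_or_lt with he | hlt
    · rw [← he]; linarith
    · have hx1 : x ≤ 1 := hx.2.trans hq
      obtain ⟨z, hz, hz2⟩ := exists_hasDerivAt_eq_slope (D i) (fun x => κ i * D (i + 1) x) hlt
        (fun t ht => (h.der i hi.le t ⟨hp.trans ht.1, ht.2.trans hx1⟩).continuousAt.continuousWithinAt)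
        (fun t ht => h.der i hi.le t ⟨hp.trans ht.1.le, ht.2.le.trans hx1⟩)
      have h4 : 0 < x - (m : ℝ) / M := by linarith
      have h5 : D i x - D i ((m : ℝ) / M) = κ i * D (i + 1) z * (x - (m : ℝ) / M) := by
        rw [hz2, div_mul_cancel₀ _ h4.ne']
      have h6 : |κ i * D (i + 1) z| ≤ κ1 * U := by
        rw [abs_mul]
        exact mul_le_mul (h.up i hi) (h.bd (i + 1) hi z ⟨hp.trans hz.1.le, hz.2.le.trans hx1⟩)
          (abs_nonneg _) (by linarith)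
      have h7 : x - (m : ℝ) / M ≤ 1 / M := by
        have : ((m + 1 : ℕ) / M : ℝ) = (m : ℝ) / M + 1 / M := by
          push_cast
          rw [add_div]
        have := hx.2
        linarith
      have h8 : |D i x - D i ((m : ℝ) / M)| ≤ lam / 2 := by
        rw [h5, abs_mul, abs_of_pos h4]
        calc |κ i * D (i + 1) z| * (x - (m : ℝ) / M) ≤ κ1 * U * (1 / M) := by gcongr
          _ = κ1 * U / M := by ring
          _ ≤ lam / 2 := by
              rw [div_le_div_iff₀ hM0 (by norm_num)]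
              rw [div_le_iff₀ hl0] at hM1
              linarith
      have h9 := abs_sub_abs_le_abs_sub (D i ((m : ℝ) / M)) (D i x)
      rw [abs_sub_comm] at h9
      linarith
  have hsum : ∫ x in (0 : ℝ)..1, Real.cos (θ x) =
      ∑ m ∈ Finset.range M, ∫ x in ((m : ℝ) / M)..((m + 1 : ℕ) / M : ℝ), Real.cos (θ x) := by
    have := intervalIntegral.sum_integral_adjacent_intervals (f := fun x => Real.cos (θ x))
      (μ := volume) (a := fun m : ℕ => (m : ℝ) / M) (n := M) (fun m hm => by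
        have hm' : ((m : ℝ) + 1) ≤ M := by exact_mod_cast hm
        refine ii_cos h (by positivity) ?_ ?_
        · apply div_le_div_of_nonneg_right _ hM0.le
          push_cast
          linarith
        · rw [div_le_one hM0]
          push_cast
          exact hm')
    rw [this]
    simp only [Nat.cast_zero, zero_div]
    rw [div_self hM0.ne']
  rw [hsum]
  calc |∑ m ∈ Finset.range M, ∫ x in ((m : ℝ) / M)..((m + 1 : ℕ) / M : ℝ), Real.cos (θ x)|
      ≤ ∑ m ∈ Finset.range M, |∫ x in ((m : ℝ) / M)..((m + 1 : ℕ) / M : ℝ), Real.cos (θ x)| :=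
        Finset.abs_sum_le_sum_abs _ _
    _ ≤ ∑ m ∈ Finset.range M, E := Finset.sum_le_sum (fun m hm => hpiece m (Finset.mem_range.mp hm))
    _ = M * E := by rw [Finset.sum_const, Finset.card_range, nsmul_eq_mul]
    _ ≤ 3 * κ1 * U / lam * E := mul_le_mul_of_nonneg_right hM2 hE0
    _ = 30 * 2 ^ R * κ1 ^ 2 * U ^ 2 / (κ0 ^ (2 * R) * lam ^ 3) * ρ := by
        rw [hE]
        field_simp
        ring

end Pool.Agent.Y933.KI
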