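import Pool.Agent.Y933.KI.Mean

/-!
# The maximal inequality over all the subintervals
-/

set_option autoImplicit false

namespace Pool.Agent.Y933.KI

open Set MeasureTheory intervalIntegral

lemma dyad_step (z : ℕ → ℂ) {p L l : ℕ} (hp : p ≤ 2 ^ L) (hl : l ≤ L) :
    ‖∑ k ∈ Finset.range (p / 2 ^ l * 2 ^ l), z k -
      ∑ k ∈ Finset.range (p / 2 ^ (l + 1) * 2 ^ (l + 1)), z k‖ ^ 2 ≤
    ∑ j ∈ Finset.range (2 ^ (L - l)), ‖∑ i ∈ Finset.range (2 ^ l), z (j * 2 ^ l + i)‖ ^ 2 := by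
  have h1 : p / 2 ^ (l + 1) = p / 2 ^ l / 2 := by
    rw [Nat.div_div_eq_div_mul, pow_succ]
  rw [h1]
  set t := p / 2 ^ l with ht
  rcases Nat.even_or_odd' t with ⟨s, hs | hs⟩
  · have h2 : t / 2 * 2 ^ (l + 1) = t * 2 ^ l := by
      rw [hs, Nat.mul_div_cancel_left _ (by norm_num), pow_succ]
      ring
    rw [h2, sub_self]
    simp only [norm_zero]
    rw [zero_pow (by norm_num)]
    exact Finset.sum_nonneg (fun i _ => by positivity)
  · have h2 : t / 2 * 2 ^ (l + 1) = 2 * s * 2 ^ l := by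
      have : t / 2 = s := by omega
      rw [this, pow_succ]
      ring
    have h3 : t * 2 ^ l = 2 * s * 2 ^ l + 2 ^ l := by
      rw [hs]
      ring
    rw [h2, h3, Finset.sum_range_add, add_sub_cancel_left]
    have h4 : 2 * s ∈ Finset.range (2 ^ (L - l)) := by
      rw [Finset.mem_range]
      have h5 : t * 2 ^ l ≤ p := Nat.div_mul_le_self p (2 ^ l)
      have h6 : 2 ^ L = 2 ^ (L - l) * 2 ^ l := by
        rw [← pow_add, Nat.sub_add_cancel hl]
      have h7 : t ≤ 2 ^ (L - l) := by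
        have : t * 2 ^ l ≤ 2 ^ (L - l) * 2 ^ l := by
          rw [← h6]
          exact h5.trans hp
        exact Nat.le_of_mul_le_mul_right this (by positivity)
      omega
    exact Finset.single_le_sum (f := fun j => ‖∑ i ∈ Finset.range (2 ^ l), z (j * 2 ^ l + i)‖ ^ 2)
      (fun i _ => by positivity) h4

/-- The initial sums of length at most `2 ^ L`. -/
lemma dyad (z : ℕ → ℂ) {p L : ℕ} (hp : p ≤ 2 ^ L) :
    ‖∑ k ∈ Finset.range p, z k‖ ^ 2 ≤ (L + 1) * ∑ l ∈ Finset.range (L + 1),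
      ∑ j ∈ Finset.range (2 ^ (L - l)), ‖∑ i ∈ Finset.range (2 ^ l), z (j * 2 ^ l + i)‖ ^ 2 := by
  have e := Finset.sum_range_sub' (fun l => ∑ k ∈ Finset.range (p / 2 ^ l * 2 ^ l), z k) (L + 1)
  have e2 : p / 2 ^ (L + 1) = 0 := by
    apply Nat.div_eq_of_lt
    refine hp.trans_lt (Nat.pow_lt_pow_right (by norm_num) (Nat.lt_succ_self L))
  simp only [pow_zero, Nat.div_one, mul_one, e2, zero_mul, Finset.range_zero, Finset.sum_empty,
    sub_zero] at e
  rw [← e]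
  calc ‖∑ l ∈ Finset.range (L + 1), (∑ k ∈ Finset.range (p / 2 ^ l * 2 ^ l), z k -
          ∑ k ∈ Finset.range (p / 2 ^ (l + 1) * 2 ^ (l + 1)), z k)‖ ^ 2
      ≤ (∑ l ∈ Finset.range (L + 1), ‖∑ k ∈ Finset.range (p / 2 ^ l * 2 ^ l), z k -
          ∑ k ∈ Finset.range (p / 2 ^ (l + 1) * 2 ^ (l + 1)), z k‖) ^ 2 :=
        pow_le_pow_left₀ (norm_nonneg _) (norm_sum_le _ _) 2
    _ ≤ ((Finset.range (L + 1)).card : ℝ) * ∑ l ∈ Finset.range (L + 1),
          ‖∑ k ∈ Finset.range (p / 2 ^ l * 2 ^ l), z k -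
          ∑ k ∈ Finset.range (p / 2 ^ (l + 1) * 2 ^ (l + 1)), z k‖ ^ 2 :=
        sq_sum_le_card_mul_sum_sq
    _ ≤ _ := by
        rw [Finset.card_range]
        push_cast
        refine mul_le_mul_of_nonneg_left (Finset.sum_le_sum (fun l hl => ?_)) (by positivity)
        exact dyad_step z hp (by have := Finset.mem_range.mp hl; omega)

/-- the square function -/
noncomputable def GG (g : ℝ → ℝ) (r : ℕ → ℝ) (B : ℝ) (q L : ℕ) (u : ℝ) : ℝ :=
  ∑ l ∈ Finset.range (L + 1), ∑ j ∈ Finset.range (2 ^ (L - l)),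
    ‖bs g r B (q + j * 2 ^ l) (2 ^ l) u‖ ^ 2

lemma GG_nonneg (g : ℝ → ℝ) (r : ℕ → ℝ) (B : ℝ) (q L : ℕ) (u : ℝ) : 0 ≤ GG g r B q L u :=
  Finset.sum_nonneg (fun _ _ => Finset.sum_nonneg (fun _ _ => by positivity))

lemma GG_meas {g : ℝ → ℝ} (hg : Continuous g) (r : ℕ → ℝ) (B : ℝ) (q L : ℕ) : Measurable (GG g r B q L) := by
  unfold GG
  refine Finset.measurable_sum _ (fun l _ => Finset.measurable_sum _ (fun j _ => ?_))
  exact (bs_meas hg r B _ _).norm.pow_const 2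

lemma sub_sum {g : ℝ → ℝ} {r : ℕ → ℝ} {B : ℝ} {q L N1 N2 : ℕ} (h1 : q ≤ N1) (h2 : N2 + 1 ≤ q + 2 ^ L) (u : ℝ) :
    ‖∑ n ∈ Finset.Icc N1 N2, zt g r B n u‖ ^ 2 ≤ 4 * (L + 1) * GG g r B q L u := by
  have hG := GG_nonneg g r B q L u
  rcases lt_or_ge N2 N1 with h | h
  · rw [Finset.Icc_eq_empty (by omega)]
    simp only [Finset.sum_empty, norm_zero]
    have : (0 : ℝ) ≤ 4 * (L + 1) * GG g r B q L u := by positivity
    simpa using this
  · have key : ∀ p : ℕ, p ≤ 2 ^ L → ‖∑ k ∈ Finset.range p, zt g r B (q + k) u‖ ^ 2 ≤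
        (L + 1) * GG g r B q L u := by
      intro p hp
      refine (dyad (fun k => zt g r B (q + k) u) hp).trans (le_of_eq ?_)
      unfold GG bs
      simp only [Nat.add_assoc]
    have e : ∑ n ∈ Finset.Icc N1 N2, zt g r B n u =
        ∑ k ∈ Finset.range (N2 + 1 - q), zt g r B (q + k) u -
        ∑ k ∈ Finset.range (N1 - q), zt g r B (q + k) u := by
      have e1 : Finset.Icc N1 N2 = Finset.Ico N1 (N2 + 1) := by
        ext x
        simp only [Finset.mem_Icc, Finset.mem_Ico]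
        omega
      have e2 := Finset.sum_Ico_eq_sum_range (fun n => zt g r B n u) q (N2 + 1)
      have e3 := Finset.sum_Ico_eq_sum_range (fun n => zt g r B n u) q N1
      rw [e1, ← e2, ← e3, ← Finset.sum_Ico_consecutive _ h1 (by omega : N1 ≤ N2 + 1),
        add_sub_cancel_left]
    rw [e]
    have k1 := key (N2 + 1 - q) (by omega)
    have k2 := key (N1 - q) (by omega)
    have k3 := norm_sub_le (∑ k ∈ Finset.range (N2 + 1 - q), zt g r B (q + k) u)
      (∑ k ∈ Finset.range (N1 - q), zt g r B (q + k) u)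
    set x := ‖∑ k ∈ Finset.range (N2 + 1 - q), zt g r B (q + k) u‖
    set y := ‖∑ k ∈ Finset.range (N1 - q), zt g r B (q + k) u‖
    have k4 : ‖∑ k ∈ Finset.range (N2 + 1 - q), zt g r B (q + k) u -
      ∑ k ∈ Finset.range (N1 - q), zt g r B (q + k) u‖ ^ 2 ≤ (x + y) ^ 2 :=
      pow_le_pow_left₀ (norm_nonneg _) k3 2
    nlinarith [sq_nonneg (x - y)]

lemma GG_int {g f1 f2 f3 : ℝ → ℝ} {A B lo : ℝ} (h : Reg g f1 f2 f3 A B lo) (hg : Continuous g)
    (r : ℕ → ℝ)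
    {q : ℕ} (hq : A ≤ q) {a b : ℝ} (ha : 0 ≤ a) (hab : a ≤ b) (L : ℕ) :
    IntervalIntegrable (GG g r B q L) volume a b ∧
    ∫ u in a..b, GG g r B q L u ≤ 2 * (L + 1) ^ 2 * 2 ^ L * ((b - a) + 1 / lo) := by
  have hlo := h.pos
  have i1 : ∀ P H : ℕ, IntervalIntegrable (fun u => ‖bs g r B P H u‖ ^ 2) volume a b := by
    intro P H
    refine ii ((bs_meas hg r B P H).norm.pow_const 2) (M := (H : ℝ) ^ 2) (fun u => ?_) a b
    rw [abs_of_nonneg (by positivity)]
    exact pow_le_pow_left₀ (norm_nonneg _) (bs_norm g r B P H u) 2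
  have i2 : ∀ l : ℕ, IntervalIntegrable (fun u => ∑ j ∈ Finset.range (2 ^ (L - l)),
      ‖bs g r B (q + j * 2 ^ l) (2 ^ l) u‖ ^ 2) volume a b := by
    intro l
    have := IntervalIntegrable.sum (Finset.range (2 ^ (L - l)))
      (f := fun j u => ‖bs g r B (q + j * 2 ^ l) (2 ^ l) u‖ ^ 2)
      (μ := volume) (a := a) (b := b) (fun j _ => i1 _ _)
    refine this.congr (fun u _ => ?_)
    rw [Finset.sum_apply]
  refine ⟨?_, ?_⟩
  · have := IntervalIntegrable.sum (Finset.range (L + 1))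
      (f := fun l u => ∑ j ∈ Finset.range (2 ^ (L - l)), ‖bs g r B (q + j * 2 ^ l) (2 ^ l) u‖ ^ 2)
      (μ := volume) (a := a) (b := b) (fun l _ => i2 l)
    refine this.congr (fun u _ => ?_)
    rw [Finset.sum_apply]
    rfl
  · unfold GG
    rw [intervalIntegral.integral_finsetSum (fun l _ => i2 l)]
    have h1 : ∀ l ∈ Finset.range (L + 1), ∫ u in a..b, ∑ j ∈ Finset.range (2 ^ (L - l)),
        ‖bs g r B (q + j * 2 ^ l) (2 ^ l) u‖ ^ 2 ≤ 2 * (L + 1) * 2 ^ L * ((b - a) + 1 / lo) := by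
      intro l hl
      have hl2 : l ≤ L := by have := Finset.mem_range.mp hl; omega
      rw [intervalIntegral.integral_finsetSum (fun j _ => i1 _ _)]
      have h2 : ∀ j ∈ Finset.range (2 ^ (L - l)),
          ∫ u in a..b, ‖bs g r B (q + j * 2 ^ l) (2 ^ l) u‖ ^ 2 ≤
          2 ^ l * (2 * (L + 1) * ((b - a) + 1 / lo)) := by
        intro j _
        have hqj : A ≤ ((q + j * 2 ^ l : ℕ) : ℝ) := hq.trans (by exact_mod_cast Nat.le_add_right q _)
        refine (bs_int h hg r hqj ha hab (2 ^ l)).trans ?_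
        have h3 := hm_pow l
        have h4 := hm_nonneg (2 ^ l)
        have h5 : (l : ℝ) ≤ L := by exact_mod_cast hl2
        push_cast
        have h6 : 2 * (2 : ℝ) ^ l * hm (2 ^ l) / lo ≤ 2 ^ l * (2 * (L + 1) * (1 / lo)) := by
          have : 2 * (2 : ℝ) ^ l * hm (2 ^ l) / lo = 2 ^ l * (2 * hm (2 ^ l) * (1 / lo)) := by ring
          rw [this]
          gcongr
          linarith
        have h7 : (2 : ℝ) ^ l * (b - a) ≤ 2 ^ l * (2 * (L + 1) * (b - a)) := by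
          have h8 : 0 ≤ b - a := by linarith
          have h9 : (0 : ℝ) ≤ L := Nat.cast_nonneg L
          gcongr
          nlinarith
        calc _ ≤ (2 : ℝ) ^ l * (2 * (L + 1) * (b - a)) + 2 ^ l * (2 * (L + 1) * (1 / lo)) :=
              add_le_add h7 h6
          _ = _ := by ring
      refine (Finset.sum_le_sum h2).trans ?_
      rw [Finset.sum_const, Finset.card_range, nsmul_eq_mul]
      push_cast
      have h10 : (2 : ℝ) ^ (L - l) * 2 ^ l = 2 ^ L := by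
        rw [← pow_add, Nat.sub_add_cancel hl2]
      have : (2 : ℝ) ^ (L - l) * (2 ^ l * (2 * (L + 1) * ((b - a) + 1 / lo))) =
          2 * (L + 1) * ((2 : ℝ) ^ (L - l) * 2 ^ l) * ((b - a) + 1 / lo) := by ring
      rw [this, h10]
    refine (Finset.sum_le_sum h1).trans ?_
    rw [Finset.sum_const, Finset.card_range, nsmul_eq_mul]
    push_cast
    apply le_of_eq
    ring

/-- The exceptional translations. -/
lemma exc {g f1 f2 f3 : ℝ → ℝ} {A B lo : ℝ} (h : Reg g f1 f2 f3 A B lo) (hg : Continuous g)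
    (r : ℕ → ℝ)
    {q : ℕ} (hq : A ≤ q) {a b : ℝ} (ha : 0 ≤ a) (hab : a ≤ b) (L : ℕ) {V : ℝ} (hV : 0 < V) :
    volume {u : ℝ | u ∈ Icc a b ∧ ∃ N1 N2 : ℕ, q ≤ N1 ∧ N2 + 1 ≤ q + 2 ^ L ∧
      V < ‖∑ n ∈ Finset.Icc N1 N2, zt g r B n u‖} ≤
    ENNReal.ofReal (8 * (L + 1) ^ 3 * 2 ^ L * ((b - a) + 1 / lo) / V ^ 2) := by
  obtain ⟨i1, i2⟩ := GG_int h hg r hq ha hab L
  set S : Set ℝ := {u | V ^ 2 ≤ 4 * (L + 1) * GG g r B q L u} with hS
  have hSm : MeasurableSet S := measurableSet_le measurable_const ((GG_meas hg r B q L).const_mul _)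
  have hsub : {u : ℝ | u ∈ Icc a b ∧ ∃ N1 N2 : ℕ, q ≤ N1 ∧ N2 + 1 ≤ q + 2 ^ L ∧
      V < ‖∑ n ∈ Finset.Icc N1 N2, zt g r B n u‖} ⊆ S ∩ Icc a b := by
    rintro u ⟨hu, N1, N2, h1, h2, h3⟩
    refine ⟨?_, hu⟩
    show V ^ 2 ≤ 4 * (L + 1) * GG g r B q L u
    exact (pow_le_pow_left₀ hV.le h3.le 2).trans (sub_sum h1 h2 u)
  refine (measure_mono hsub).trans ?_
  rw [← Measure.restrict_apply hSm]
  have : IsFiniteMeasure (volume.restrict (Icc a b)) :=
    ⟨by rw [Measure.restrict_apply_univ]; exact measure_Icc_lt_top⟩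
  rw [← ofReal_measureReal]
  apply ENNReal.ofReal_le_ofReal
  have hint : Integrable (fun u => 4 * (L + 1) * GG g r B q L u) (volume.restrict (Icc a b)) := by
    have := (intervalIntegrable_iff_integrableOn_Icc_of_le hab).mp (i1.const_mul (4 * ((L : ℝ) + 1)))
    exact this
  have hmk := mul_meas_ge_le_integral_of_nonneg (μ := volume.restrict (Icc a b))
    (f := fun u => 4 * (L + 1) * GG g r B q L u)
    (Filter.Eventually.of_forall (fun u => by
      have := GG_nonneg g r B q L u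
      show (0 : ℝ) ≤ 4 * (L + 1) * GG g r B q L u
      positivity)) hint (V ^ 2)
  rw [integral_Icc_eq_integral_Ioc, ← intervalIntegral.integral_of_le hab,
    intervalIntegral.integral_const_mul] at hmk
  rw [le_div_iff₀ (by positivity), mul_comm]
  refine hmk.trans ?_
  have : 4 * ((L : ℝ) + 1) * ∫ u in a..b, GG g r B q L u ≤
      4 * (L + 1) * (2 * (L + 1) ^ 2 * 2 ^ L * ((b - a) + 1 / lo)) :=
    mul_le_mul_of_nonneg_left i2 (by positivity)
  refine this.trans (le_of_eq ?_)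
  ring

end Pool.Agent.Y933.KI
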