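import Pool.Agent.Y933.KI.Spec

/-!
# All the polynomial phases and a window of multipliers at the same time
-/

set_option autoImplicit false

namespace Pool.Agent.Y933.KI

open Set MeasureTheory

lemma g_growth {g : ℝ → ℝ} {β : ℝ} {b : ℕ} (hb : |β| ≤ b)
    (hg : ∀ x : ℝ, 0 < x → HasDerivAt g (x ^ β) x) {N : ℕ} (hN : 1 ≤ N) {z : ℝ} (hz : (N : ℝ) ≤ z)
    (hz2 : z ≤ 3 * N) : |g z - g N| ≤ (3 : ℝ) ^ b * (N : ℝ) ^ β * (2 * N) := by
  have hN' : (1 : ℝ) ≤ N := by exact_mod_cast hN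
  have hNβ : 0 < (N : ℝ) ^ β := Real.rpow_pos_of_pos (by linarith) β
  rcases hz.eq_or_lt with he | hlt
  · rw [← he, sub_self, abs_zero]
    positivity
  · obtain ⟨t, ht, ht2⟩ := exists_hasDerivAt_eq_slope g (fun x => x ^ β) hlt
      (fun x hx => (hg x (by linarith [hx.1])).continuousAt.continuousWithinAt)
      (fun x hx => hg x (by linarith [hx.1]))
    have h1 : 0 < z - N := by linarith
    have h2 : g z - g N = t ^ β * (z - N) := by
      rw [ht2, div_mul_cancel₀ _ h1.ne']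
    have ht0 : 0 < t := by linarith [ht.1]
    have h3 := (pw_nf hb hN (z := t) ht.1.le (by linarith [ht.2])).2
    rw [h2, abs_mul, abs_of_pos (Real.rpow_pos_of_pos ht0 β), abs_of_pos h1]
    exact mul_le_mul h3 (by linarith) h1.le (by positivity)

lemma e_close (η : ℝ) :
    ‖Complex.exp (2 * (Real.pi : ℂ) * Complex.I * (η : ℂ)) - 1‖ ≤ 2 * Real.pi * |η| := by
  have h := Real.norm_exp_I_mul_ofReal_sub_one_le (x := 2 * Real.pi * η)
  have e : 2 * (Real.pi : ℂ) * Complex.I * (η : ℂ) = Complex.I * ((2 * Real.pi * η : ℝ) : ℂ) := by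
    push_cast
    ring
  rw [e]
  refine h.trans (le_of_eq ?_)
  rw [Real.norm_eq_abs, abs_mul, abs_of_pos (by positivity : 0 < 2 * Real.pi)]

lemma e_norm (η : ℝ) : ‖Complex.exp (2 * (Real.pi : ℂ) * Complex.I * (η : ℂ))‖ = 1 := by
  have : 2 * (Real.pi : ℂ) * Complex.I * (η : ℂ) = ((2 * Real.pi * η : ℝ) : ℂ) * Complex.I := by
    push_cast
    ring
  rw [this, Complex.norm_exp_ofReal_mul_I]

lemma e_int (m : ℤ) : Complex.exp (2 * (Real.pi : ℂ) * Complex.I * ((m : ℝ) : ℂ)) = 1 := by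
  have : 2 * (Real.pi : ℂ) * Complex.I * ((m : ℝ) : ℂ) = m * (2 * Real.pi * Complex.I) := by
    push_cast
    ring
  rw [this]
  exact Complex.exp_int_mul_two_pi_mul_I m

/-- Comparison of two sums whose phases differ by a constant, integers, and small numbers. -/
lemma compare (I : Finset ℕ) (ζ ξ η : ℕ → ℝ) (c : ℝ) (m : ℕ → ℤ) {r : ℝ}
    (h : ∀ n ∈ I, ζ n = ξ n + c + η n + m n) (hη : ∀ n ∈ I, |η n| ≤ r) :
    ‖∑ n ∈ I, Complex.exp (2 * (Real.pi : ℂ) * Complex.I * (ζ n : ℂ))‖ ≤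
      ‖∑ n ∈ I, Complex.exp (2 * (Real.pi : ℂ) * Complex.I * (ξ n : ℂ))‖ +
        I.card * (2 * Real.pi * r) := by
  have e1 : ∀ n ∈ I, Complex.exp (2 * (Real.pi : ℂ) * Complex.I * (ζ n : ℂ)) =
      Complex.exp (2 * (Real.pi : ℂ) * Complex.I * (c : ℂ)) *
      (Complex.exp (2 * (Real.pi : ℂ) * Complex.I * (ξ n : ℂ)) +
        Complex.exp (2 * (Real.pi : ℂ) * Complex.I * (ξ n : ℂ)) *
        (Complex.exp (2 * (Real.pi : ℂ) * Complex.I * (η n : ℂ)) - 1)) := by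
    intro n hn
    have e2 : 2 * (Real.pi : ℂ) * Complex.I * (ζ n : ℂ) =
        2 * (Real.pi : ℂ) * Complex.I * (c : ℂ) + 2 * (Real.pi : ℂ) * Complex.I * (ξ n : ℂ) +
        2 * (Real.pi : ℂ) * Complex.I * (η n : ℂ) + 2 * (Real.pi : ℂ) * Complex.I * ((m n : ℝ) : ℂ) := by
      rw [h n hn]
      push_cast
      ring
    rw [e2, Complex.exp_add, Complex.exp_add, Complex.exp_add, e_int]
    ring
  rw [Finset.sum_congr rfl e1, ← Finset.mul_sum, norm_mul, e_norm, one_mul, Finset.sum_add_distrib]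
  refine (norm_add_le _ _).trans ?_
  refine add_le_add_right ?_ _
  calc ‖∑ n ∈ I, Complex.exp (2 * (Real.pi : ℂ) * Complex.I * (ξ n : ℂ)) *
        (Complex.exp (2 * (Real.pi : ℂ) * Complex.I * (η n : ℂ)) - 1)‖
      ≤ ∑ n ∈ I, 2 * Real.pi * r := by
        refine norm_sum_le_of_le _ (fun n hn => ?_)
        rw [norm_mul, e_norm, one_mul]
        refine (e_close (η n)).trans ?_
        have := hη n hn
        gcongr
    _ = I.card * (2 * Real.pi * r) := by rw [Finset.sum_const, nsmul_eq_mul]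

/-- the derivatives of `g` -/
noncomputable def gd (β : ℝ) (g : ℝ → ℝ) : ℕ → ℝ → ℝ
  | 0 => g
  | p + 1 => fun x => fp β p * x ^ (β - p)

lemma gd_der {β : ℝ} {g : ℝ → ℝ} (hg : ∀ x : ℝ, 0 < x → HasDerivAt g (x ^ β) x) (i : ℕ) {x : ℝ}
    (hx : 0 < x) : HasDerivAt (gd β g i) (gd β g (i + 1) x) x := by
  cases i with
  | zero =>
    have e : gd β g (0 + 1) x = x ^ β := by
      show fp β 0 * x ^ (β - (0 : ℕ)) = x ^ β
      rw [fp, Finset.prod_range_zero, one_mul, Nat.cast_zero, sub_zero]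
    rw [e]
    exact hg x hx
  | succ p =>
    have h := (Real.hasDerivAt_rpow_const (x := x) (p := β - p) (Or.inl hx.ne')).const_mul (fp β p)
    refine h.congr_deriv ?_
    show fp β p * ((β - p) * x ^ (β - p - 1)) = fp β (p + 1) * x ^ (β - (p + 1 : ℕ))
    have h7 : fp β (p + 1) = fp β p * (β - p) := by rw [fp, Finset.prod_range_succ]; rfl
    rw [h7]
    push_cast
    rw [sub_sub]
    ring

lemma near_add {β T c0 : ℝ} {C P N : ℕ} {φ : ℕ → ℝ → ℝ} (hφ : Near β T c0 C P N φ) (hN : 1 ≤ N)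
    (hc0 : 0 < c0) {g : ℝ → ℝ} (hg : ∀ x : ℝ, 0 < x → HasDerivAt g (x ^ β) x) {s : ℝ} (hs : 0 ≤ s) :
    Near β (T + s) c0 C P N (fun i x => φ i x + s * gd β g i x) := by
  have hN' : (1 : ℝ) ≤ N := by exact_mod_cast hN
  refine ⟨fun i hi x hx => ?_, fun p hp x hx => ?_⟩
  · have hx0 : 0 < x := by linarith [hx.1]
    exact (hφ.der i hi x hx).add ((gd_der hg i hx0).const_mul s)
  · have hx0 : 0 < x := by linarith [hx.1]
    have e : φ (p + 1) x + s * gd β g (p + 1) x - (T + s) * fp β p * x ^ (β - p) =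
        φ (p + 1) x - T * fp β p * x ^ (β - p) := by
      show φ (p + 1) x + s * (fp β p * x ^ (β - p)) - (T + s) * fp β p * x ^ (β - p) = _
      ring
    rw [e]
    refine (hφ.near p hp x hx).trans ?_
    have : 0 < x ^ (β - p) := Real.rpow_pos_of_pos hx0 _
    gcongr
    linarith

/-- The functions close to a power function, with all polynomial phases and a window of multipliers. -/
theorem special (ε : ℝ) (hε : 0 < ε) (B d : ℕ) : ∃ (A C P : ℕ), ∀ (β : ℝ), (∀ m : ℕ, β ≠ m) →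
    ∃ (c0 K : ℝ), 0 < c0 ∧ ∀ N : ℕ, 1 ≤ N → ∀ T : ℝ, 0 < T → (N : ℝ) ^ A ≤ T * (N : ℝ) ^ β →
      ∀ φ : ℕ → ℝ → ℝ, Near β T c0 C P N φ →
      ∀ g : ℝ → ℝ, (∀ x : ℝ, 0 < x → HasDerivAt g (x ^ β) x) →
      volume {u : ℝ | u ∈ Icc (0 : ℝ) 1 ∧ ∃ t : ℝ, 0 ≤ t ∧ t * ((N : ℝ) ^ β * N) ≤ (N : ℝ) ^ B ∧
        ∃ Q : Polynomial ℝ,
        Q.natDegree ≤ d ∧ ∃ N1 N2 : ℕ, N ≤ N1 ∧ N1 ≤ N2 ∧ N2 ≤ 2 * N ∧
        ((N2 : ℝ) - N1 + 1) ^ (1 / 2 : ℝ) * (N : ℝ) ^ ε < ‖∑ n ∈ Finset.Icc N1 N2,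
          Complex.exp (2 * (Real.pi : ℂ) * Complex.I *
            ((φ 0 ((n : ℝ) + u) + t * g ((n : ℝ) + u) + Q.eval (n : ℝ) : ℝ) : ℂ))‖} ≤
      ENNReal.ofReal (K / (N : ℝ) ^ B) := by
  obtain ⟨A, C, P, hsing0⟩ := single ε hε (B + (2 + (B + 1) + (d + 1) ^ 2))
  refine ⟨A, C, P, fun β hβ => ?_⟩
  obtain ⟨b, hb⟩ := exists_nat_ge |β|
  obtain ⟨c0, K, hc0, hK, hsing⟩ := hsing0 β hβ
  refine ⟨c0, 4 * (2 * (128 * 3 ^ b)) * (64 * (d + 1) * 2 ^ d) ^ (d + 1) * K, hc0, ?_⟩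
  intro N hN T hT0 hT φ hφ g hg
  have hN' : (1 : ℝ) ≤ N := by exact_mod_cast hN
  have hN0 : (0 : ℝ) < N := by linarith
  have hNβ : 0 < (N : ℝ) ^ β := Real.rpow_pos_of_pos hN0 β
  set H : ℝ := 128 * 3 ^ b * ((N : ℝ) ^ β * N ^ 2) with hH
  set M : ℕ := 64 * (d + 1) * 2 ^ d * N ^ (d + 1) with hM
  have hMr : (M : ℝ) = 64 * (d + 1) * 2 ^ d * (N : ℝ) ^ (d + 1) := by rw [hM]; push_cast; ring
  have hH0 : (0 : ℝ) < H := by rw [hH]; positivity
  have hM0 : (0 : ℝ) < M := by rw [hMr]; positivity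
  set J : ℕ := 128 * 3 ^ b * N ^ (B + 1) + 1 with hJ
  set qc : (Fin (d + 1) → ℕ) → ℕ → ℝ := fun c n => ∑ i, ((c i : ℝ) / M) * (n : ℝ) ^ (i : ℕ) with hqc
  set fj : ℕ → ℕ → ℝ → ℝ := fun j i x => φ i x + (j / H) * gd β g i x with hfj
  set Idx : Finset ((ℕ × ℕ) × (ℕ × (Fin (d + 1) → ℕ))) :=
    ((Finset.Icc N (2 * N) ×ˢ Finset.Icc N (2 * N)).filter (fun p => p.1 ≤ p.2)) ×ˢ
      (Finset.range J ×ˢ Fintype.piFinset (fun _ : Fin (d + 1) => Finset.range M)) with hIdx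
  have hsub : {u : ℝ | u ∈ Icc (0 : ℝ) 1 ∧ ∃ t : ℝ, 0 ≤ t ∧ t * ((N : ℝ) ^ β * N) ≤ (N : ℝ) ^ B ∧
        ∃ Q : Polynomial ℝ,
        Q.natDegree ≤ d ∧ ∃ N1 N2 : ℕ, N ≤ N1 ∧ N1 ≤ N2 ∧ N2 ≤ 2 * N ∧
        ((N2 : ℝ) - N1 + 1) ^ (1 / 2 : ℝ) * (N : ℝ) ^ ε < ‖∑ n ∈ Finset.Icc N1 N2,
          Complex.exp (2 * (Real.pi : ℂ) * Complex.I *
            ((φ 0 ((n : ℝ) + u) + t * g ((n : ℝ) + u) + Q.eval (n : ℝ) : ℝ) : ℂ))‖} ⊆
      ⋃ p ∈ Idx, {u : ℝ | u ∈ Icc (0 : ℝ) 1 ∧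
        ((Finset.Icc p.1.1 p.1.2).card : ℝ) ^ (1 / 2 : ℝ) * (N : ℝ) ^ ε / 2 <
        ‖ES (fj p.2.1 0) (qc p.2.2) (Finset.Icc p.1.1 p.1.2) u‖} := by
    rintro u ⟨hu, t, ht0, ht1, Q, hQ, N1, N2, h1, h, h2, h3⟩
    set j : ℕ := ⌊t * H⌋₊ with hj
    have hj1 : (j : ℝ) ≤ t * H := Nat.floor_le (mul_nonneg ht0 hH0.le)
    have hj2 : t * H < j + 1 := Nat.lt_floor_add_one _
    have hj3 : j < J := by
      have : (j : ℝ) ≤ ((128 * 3 ^ b * N ^ (B + 1) : ℕ) : ℝ) := by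
        push_cast
        refine hj1.trans ?_
        calc t * H = 128 * 3 ^ b * (t * ((N : ℝ) ^ β * N) * N) := by rw [hH]; ring
          _ ≤ 128 * 3 ^ b * ((N : ℝ) ^ B * N) := by gcongr
          _ = 128 * 3 ^ b * (N : ℝ) ^ (B + 1) := by rw [pow_succ]
      have h4 : j ≤ 128 * 3 ^ b * N ^ (B + 1) := by exact_mod_cast this
      omega
    set c : Fin (d + 1) → ℕ := fun i => ⌊Int.fract (Q.coeff i) * M⌋₊ with hc
    have hc1 : ∀ i : Fin (d + 1), (c i : ℝ) ≤ Int.fract (Q.coeff i) * M := fun i =>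
      Nat.floor_le (mul_nonneg (Int.fract_nonneg _) hM0.le)
    have hc2 : ∀ i : Fin (d + 1), Int.fract (Q.coeff i) * M < c i + 1 :=
      fun i => Nat.lt_floor_add_one _
    have hc3 : ∀ i : Fin (d + 1), c i < M := by
      intro i
      have h4 : Int.fract (Q.coeff i) * M < M := by
        have := Int.fract_lt_one (Q.coeff i)
        nlinarith
      exact_mod_cast (hc1 i).trans_lt h4
    set τ : ℝ := t - j / H with hτ
    have hτ0 : 0 ≤ τ := by
      rw [hτ, sub_nonneg, div_le_iff₀ hH0]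
      exact hj1
    have hτ1 : τ ≤ 1 / H := by
      have : t < (j + 1) / H := by rw [lt_div_iff₀ hH0]; exact hj2
      rw [add_div] at this
      rw [hτ]
      linarith
    rw [mem_iUnion₂]
    refine ⟨((N1, N2), (j, c)), ?_, hu, ?_⟩
    · rw [hIdx, Finset.mem_product, Finset.mem_product, Finset.mem_filter, Finset.mem_product,
        Finset.mem_Icc, Finset.mem_Icc, Finset.mem_range, Fintype.mem_piFinset]
      exact ⟨⟨⟨⟨h1, h.trans h2⟩, ⟨h1.trans h, h2⟩⟩, h⟩, hj3,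
        fun i => Finset.mem_range.mpr (hc3 i)⟩
    · show ((Finset.Icc N1 N2).card : ℝ) ^ (1 / 2 : ℝ) * (N : ℝ) ^ ε / 2 <
        ‖ES (fj j 0) (qc c) (Finset.Icc N1 N2) u‖
      have hcard' : ((Finset.Icc N1 N2).card : ℝ) = (N2 : ℝ) - N1 + 1 := by
        rw [Nat.card_Icc, Nat.cast_sub (by omega)]
        push_cast
        ring
      have hcard1 : 1 ≤ ((Finset.Icc N1 N2).card : ℝ) := by
        rw [hcard']
        have : (N1 : ℝ) ≤ N2 := by exact_mod_cast h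
        linarith
      rw [← hcard'] at h3
      set V : ℝ := ((Finset.Icc N1 N2).card : ℝ) ^ (1 / 2 : ℝ) * (N : ℝ) ^ ε with hV
      have hV1 : 1 ≤ V := by
        rw [hV]
        exact one_le_mul_of_one_le_of_one_le (Real.one_le_rpow hcard1 (by norm_num))
          (Real.one_le_rpow hN' hε.le)
      have hcmp := compare (Finset.Icc N1 N2)
        (fun n => φ 0 ((n : ℝ) + u) + t * g ((n : ℝ) + u) + Q.eval (n : ℝ))
        (fun n => fj j 0 ((n : ℝ) + u) + qc c n)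
        (fun n => τ * (g ((n : ℝ) + u) - g N) +
          ∑ i : Fin (d + 1), (Int.fract (Q.coeff i) - c i / M) * (n : ℝ) ^ (i : ℕ))
        (τ * g N) (fun n => ∑ i : Fin (d + 1), ⌊Q.coeff i⌋ * (n : ℤ) ^ (i : ℕ))
        (r := 1 / (32 * N)) ?_ ?_
      · have hcard : ((Finset.Icc N1 N2).card : ℝ) ≤ 2 * N := by
          have h4 : (Finset.Icc N1 N2).card ≤ 2 * N := by
            rw [Nat.card_Icc]
            omega
          exact_mod_cast h4
        have h5 : ((Finset.Icc N1 N2).card : ℝ) * (2 * Real.pi * (1 / (32 * N))) ≤ 1 / 2 := by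
          calc ((Finset.Icc N1 N2).card : ℝ) * (2 * Real.pi * (1 / (32 * N)))
              ≤ 2 * N * (2 * Real.pi * (1 / (32 * N))) := by gcongr
            _ = Real.pi / 8 := by field_simp; ring
            _ ≤ 1 / 2 := by linarith [Real.pi_le_four]
        have h6 : ‖ES (fj j 0) (qc c) (Finset.Icc N1 N2) u‖ =
            ‖∑ n ∈ Finset.Icc N1 N2, Complex.exp (2 * (Real.pi : ℂ) * Complex.I *
              ((fj j 0 ((n : ℝ) + u) + qc c n : ℝ) : ℂ))‖ := rfl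
        rw [h6]
        linarith
      · intro n hn
        have e1 : Q.eval (n : ℝ) = ∑ i : Fin (d + 1), Q.coeff i * (n : ℝ) ^ (i : ℕ) := by
          rw [Polynomial.eval_eq_sum_range' (Nat.lt_succ_of_le hQ),
            Finset.sum_range (fun i => Q.coeff i * (n : ℝ) ^ i)]
        have e2 : ∀ i : Fin (d + 1), Q.coeff i * (n : ℝ) ^ (i : ℕ) =
            ((c i : ℝ) / M) * (n : ℝ) ^ (i : ℕ) +
            (Int.fract (Q.coeff i) - c i / M) * (n : ℝ) ^ (i : ℕ) +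
            ((⌊Q.coeff i⌋ : ℤ) : ℝ) * (n : ℝ) ^ (i : ℕ) := by
          intro i
          have := Int.floor_add_fract (Q.coeff i)
          nth_rewrite 1 [← this]
          ring
        have e3 : fj j 0 ((n : ℝ) + u) = φ 0 ((n : ℝ) + u) + j / H * g ((n : ℝ) + u) := rfl
        simp only [e1, hqc, e3]
        rw [Finset.sum_congr rfl (fun i _ => e2 i), Finset.sum_add_distrib, Finset.sum_add_distrib]
        push_cast
        rw [hτ]
        ring
      · intro n hn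
        obtain ⟨hn1, hn2⟩ := Finset.mem_Icc.mp hn
        have h4 : (N : ℝ) ≤ n := by exact_mod_cast h1.trans hn1
        have h5 : (n : ℝ) ≤ 2 * N := by exact_mod_cast hn2.trans h2
        have hz1 : (N : ℝ) ≤ (n : ℝ) + u := by linarith [hu.1]
        have hz2 : (n : ℝ) + u ≤ 3 * N := by linarith [hu.2]
        have h6 : |τ * (g ((n : ℝ) + u) - g N)| ≤ 1 / (64 * N) := by
          rw [abs_mul, abs_of_nonneg hτ0]
          calc τ * |g ((n : ℝ) + u) - g N| ≤ 1 / H * ((3 : ℝ) ^ b * (N : ℝ) ^ β * (2 * N)) := by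
                have := g_growth hb hg hN hz1 hz2
                gcongr
            _ = 1 / (64 * N) := by
                rw [hH]
                field_simp
                norm_num
        have h7 : |∑ i : Fin (d + 1), (Int.fract (Q.coeff i) - c i / M) * (n : ℝ) ^ (i : ℕ)| ≤
            1 / (64 * N) := by
          have h8 : ∀ i : Fin (d + 1), |(Int.fract (Q.coeff i) - c i / M) * (n : ℝ) ^ (i : ℕ)| ≤
              1 / M * (2 * N) ^ d := by
            intro i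
            have h9 : 0 ≤ Int.fract (Q.coeff i) - c i / M := by
              rw [sub_nonneg, div_le_iff₀ hM0]
              exact hc1 i
            have h10 : Int.fract (Q.coeff i) - c i / M ≤ 1 / M := by
              have : Int.fract (Q.coeff i) < (c i + 1) / M := by
                rw [lt_div_iff₀ hM0]
                exact hc2 i
              rw [add_div] at this
              linarith
            have h11 : (n : ℝ) ^ (i : ℕ) ≤ (2 * N) ^ d := by
              calc (n : ℝ) ^ (i : ℕ) ≤ (2 * N) ^ (i : ℕ) := pow_le_pow_left₀ (by linarith) h5 _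
                _ ≤ (2 * N) ^ d := pow_le_pow_right₀ (by linarith) (by have := i.2; omega)
            rw [abs_of_nonneg (by positivity)]
            gcongr
          calc |∑ i : Fin (d + 1), (Int.fract (Q.coeff i) - c i / M) * (n : ℝ) ^ (i : ℕ)|
              ≤ ∑ i : Fin (d + 1), 1 / M * (2 * N : ℝ) ^ d :=
                (Finset.abs_sum_le_sum_abs _ _).trans (Finset.sum_le_sum (fun i _ => h8 i))
            _ = 1 / (64 * N) := by
                rw [Finset.sum_const, Finset.card_univ, Fintype.card_fin, nsmul_eq_mul, hMr, mul_pow]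
                push_cast
                field_simp
                ring
        calc |τ * (g ((n : ℝ) + u) - g N) +
            ∑ i : Fin (d + 1), (Int.fract (Q.coeff i) - c i / M) * (n : ℝ) ^ (i : ℕ)|
            ≤ 1 / (64 * N) + 1 / (64 * N) := (abs_add_le _ _).trans (add_le_add h6 h7)
          _ = 1 / (32 * N) := by field_simp; norm_num
  refine (measure_mono hsub).trans ((measure_biUnion_finset_le Idx _).trans ?_)
  have hsum : ∑ p ∈ Idx, volume {u : ℝ | u ∈ Icc (0 : ℝ) 1 ∧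
        ((Finset.Icc p.1.1 p.1.2).card : ℝ) ^ (1 / 2 : ℝ) * (N : ℝ) ^ ε / 2 <
        ‖ES (fj p.2.1 0) (qc p.2.2) (Finset.Icc p.1.1 p.1.2) u‖} ≤
      ∑ p ∈ Idx, ENNReal.ofReal (K / (N : ℝ) ^ (B + (2 + (B + 1) + (d + 1) ^ 2))) := by
    refine Finset.sum_le_sum (fun p hp => ?_)
    rw [hIdx, Finset.mem_product, Finset.mem_product, Finset.mem_filter, Finset.mem_product,
      Finset.mem_Icc, Finset.mem_Icc] at hp
    have hTj0 : 0 ≤ (p.2.1 : ℝ) / H := by positivity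
    have hTj : T * (N : ℝ) ^ β ≤ (T + (p.2.1 : ℝ) / H) * (N : ℝ) ^ β := by
      apply mul_le_mul_of_nonneg_right (by linarith) hNβ.le
    exact hsing N hN (T + (p.2.1 : ℝ) / H) (by linarith) (hT.trans hTj) (fj p.2.1)
      (near_add hφ hN hc0 hg hTj0) (qc p.2.2) p.1.1 p.1.2 hp.1.1.1.1 hp.1.1.2.2 hp.1.2
  refine hsum.trans ?_
  rw [Finset.sum_const, nsmul_eq_mul, ← ENNReal.ofReal_natCast, ← ENNReal.ofReal_mul (by positivity)]
  apply ENNReal.ofReal_le_ofReal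
  have hIc : (Idx.card : ℝ) ≤
      (4 * (N : ℝ) ^ 2) * ((2 * (128 * 3 ^ b * (N : ℝ) ^ (B + 1))) * (M : ℝ) ^ (d + 1)) := by
    have h1 : Idx.card ≤ ((N + 1) * (N + 1)) * (J * M ^ (d + 1)) := by
      rw [hIdx, Finset.card_product, Finset.card_product,
        Finset.card_range, Fintype.card_piFinset_const, Finset.card_range]
      apply Nat.mul_le_mul_right
      refine (Finset.card_filter_le _ _).trans ?_
      rw [Finset.card_product, Nat.card_Icc]
      apply le_of_eq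
      congr 1 <;> omega
    have h1' : (Idx.card : ℝ) ≤ (((N + 1) * (N + 1)) * (J * M ^ (d + 1)) : ℕ) := by
      exact_mod_cast h1
    refine h1'.trans ?_
    push_cast
    have h2 : ((N : ℝ) + 1) * (N + 1) ≤ 4 * (N : ℝ) ^ 2 := by nlinarith
    have h3 : (J : ℝ) ≤ 2 * (128 * 3 ^ b * (N : ℝ) ^ (B + 1)) := by
      rw [hJ]
      push_cast
      have h4 : (1 : ℝ) ≤ (N : ℝ) ^ (B + 1) := one_le_pow₀ hN'
      have h5 : (1 : ℝ) ≤ 3 ^ b := one_le_pow₀ (by norm_num)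
      have h6 : 1 ≤ (3 : ℝ) ^ b * (N : ℝ) ^ (B + 1) := one_le_mul_of_one_le_of_one_le h5 h4
      nlinarith
    gcongr
  have h9 : 0 ≤ K / (N : ℝ) ^ (B + (2 + (B + 1) + (d + 1) ^ 2)) := by positivity
  refine (mul_le_mul_of_nonneg_right hIc h9).trans (le_of_eq ?_)
  rw [hMr]
  have e1 : (N : ℝ) ^ (B + (2 + (B + 1) + (d + 1) ^ 2)) =
      (N : ℝ) ^ B * ((N : ℝ) ^ 2 * (N : ℝ) ^ (B + 1) * ((N : ℝ) ^ (d + 1)) ^ (d + 1)) := by
    rw [← pow_mul, ← pow_add, ← pow_add, ← pow_add]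
    congr 1
    ring
  rw [e1, mul_pow (64 * ((d : ℝ) + 1) * 2 ^ d) ((N : ℝ) ^ (d + 1)) (d + 1)]
  field_simp

end Pool.Agent.Y933.KI
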