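import Pool.Agent.Y933.KI.General
import Pool.Agent.Y933.KI.Net

/-!
# Final forms
-/

set_option autoImplicit false

namespace Pool.Agent.Y933.KI

open Set MeasureTheory Filter

lemma beta_ne {α : ℝ} (hα : ∀ m : ℕ, α ≠ m + 1) : ∀ m : ℕ, α - 1 ≠ m := by
  intro m h
  apply hα m
  linarith

lemma rpow_sub_mul {N : ℕ} (hN : 1 ≤ N) (α : ℝ) : (N : ℝ) ^ (α - 1) * N = (N : ℝ) ^ α := by
  have hN0 : (0 : ℝ) < N := by exact_mod_cast hN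
  rw [Real.rpow_sub_one hN0.ne', div_mul_cancel₀ _ hN0.ne']

/-- The functions close to a power function. -/
theorem final2 (ε : ℝ) (hε : 0 < ε) (B d : ℕ) : ∃ (A C P : ℕ), ∀ (α : ℝ), (∀ m : ℕ, α ≠ m + 1) →
    ∃ (c0 K : ℝ), 0 < c0 ∧ ∀ N : ℕ, 1 ≤ N → ∀ T : ℝ, (N : ℝ) ^ A ≤ T * (N : ℝ) ^ α →
      ∀ φ : ℕ → ℝ → ℝ,
      (∀ i ≤ P, ∀ x ∈ Icc (N : ℝ) (2 * N + 1), HasDerivAt (φ i) (φ (i + 1) x) x) →
      (∀ p ≤ P, ∀ x ∈ Icc (N : ℝ) (2 * N + 1),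
        |φ (p + 1) x - T * (∏ i ∈ Finset.range p, (α - 1 - i)) * x ^ (α - 1 - p)| ≤
          c0 / (N : ℝ) ^ C * (T * x ^ (α - 1 - p))) →
      ∀ g : ℝ → ℝ, (∀ x : ℝ, 0 < x → HasDerivAt g (x ^ (α - 1)) x) →
      volume {u : ℝ | u ∈ Icc (0 : ℝ) 1 ∧ ∃ t : ℝ, 0 ≤ t ∧ t * (N : ℝ) ^ α ≤ (N : ℝ) ^ B ∧
        ∃ Q : Polynomial ℝ, Q.natDegree ≤ d ∧ ∃ N1 N2 : ℕ, N ≤ N1 ∧ N1 ≤ N2 ∧ N2 ≤ 2 * N ∧
        ((N2 : ℝ) - N1 + 1) ^ (1 / 2 : ℝ) * (N : ℝ) ^ ε < ‖∑ n ∈ Finset.Icc N1 N2,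
          Complex.exp (2 * (Real.pi : ℂ) * Complex.I *
            ((φ 0 ((n : ℝ) + u) + t * g ((n : ℝ) + u) + Q.eval (n : ℝ) : ℝ) : ℂ))‖} ≤
      ENNReal.ofReal (K / (N : ℝ) ^ B) := by
  obtain ⟨A, C, P, h0⟩ := special ε hε B d
  refine ⟨A + 1, C, P, fun α hα => ?_⟩
  obtain ⟨c0, K, hc0, h1⟩ := h0 (α - 1) (beta_ne hα)
  refine ⟨c0, K, hc0, fun N hN T hT φ hφ1 hφ2 g hg => ?_⟩
  have hN0 : (0 : ℝ) < N := by exact_mod_cast hN
  have hNα : 0 < (N : ℝ) ^ α := Real.rpow_pos_of_pos hN0 α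
  have hT0 : 0 < T := by
    have h2 : 0 < T * (N : ℝ) ^ α := lt_of_lt_of_le (by positivity) hT
    exact pos_of_mul_pos_left h2 hNα.le
  have hT2 : (N : ℝ) ^ A ≤ T * (N : ℝ) ^ (α - 1) := by
    have h3 : (N : ℝ) ^ A * N ≤ T * (N : ℝ) ^ (α - 1) * N := by
      rw [mul_assoc T, rpow_sub_mul hN, ← pow_succ]
      exact hT
    exact le_of_mul_le_mul_right h3 hN0
  have h4 := h1 N hN T hT0 hT2 φ ⟨hφ1, hφ2⟩ g hg
  rw [rpow_sub_mul hN] at h4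
  exact h4

/-- Almost every translation. -/
theorem final3 (ε : ℝ) (hε : 0 < ε) (B d : ℕ) : ∃ A : ℕ, ∀ (α : ℝ), (∀ m : ℕ, α ≠ m + 1) →
      ∀ g : ℝ → ℝ, (∀ x : ℝ, 0 < x → HasDerivAt g (x ^ (α - 1)) x) →
      ∀ T : ℕ → ℝ, (∀ᶠ N : ℕ in atTop, (N : ℝ) ^ A ≤ T N * (N : ℝ) ^ α) →
      ∀ᵐ u : ℝ ∂(volume.restrict (Icc (0 : ℝ) 1)), ∀ᶠ N : ℕ in atTop,
        ∀ t : ℝ, 0 ≤ t → t * (N : ℝ) ^ α ≤ (N : ℝ) ^ B →
        ∀ Q : Polynomial ℝ, Q.natDegree ≤ d → ∀ N1 N2 : ℕ, N ≤ N1 → N1 ≤ N2 → N2 ≤ 2 * N →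
        ‖∑ n ∈ Finset.Icc N1 N2, Complex.exp (2 * (Real.pi : ℂ) * Complex.I *
          (((T N + t) * g ((n : ℝ) + u) + Q.eval (n : ℝ) : ℝ) : ℂ))‖ ≤
        ((N2 : ℝ) - N1 + 1) ^ (1 / 2 : ℝ) * (N : ℝ) ^ ε := by
  obtain ⟨A, C, P, h0⟩ := final2 ε hε (B + 2) d
  refine ⟨A, fun α hα g hg T hT => ?_⟩
  obtain ⟨c0, K, hc0, h1⟩ := h0 α hα
  obtain ⟨M0, hM0⟩ := eventually_atTop.mp hT
  set E : ℕ → Set ℝ := fun N => {u : ℝ | u ∈ Icc (0 : ℝ) 1 ∧ ∃ t : ℝ, 0 ≤ t ∧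
        t * (N : ℝ) ^ α ≤ (N : ℝ) ^ (B + 2) ∧
        ∃ Q : Polynomial ℝ, Q.natDegree ≤ d ∧ ∃ N1 N2 : ℕ, N ≤ N1 ∧ N1 ≤ N2 ∧ N2 ≤ 2 * N ∧
        ((N2 : ℝ) - N1 + 1) ^ (1 / 2 : ℝ) * (N : ℝ) ^ ε < ‖∑ n ∈ Finset.Icc N1 N2,
          Complex.exp (2 * (Real.pi : ℂ) * Complex.I *
            ((T N * g ((n : ℝ) + u) + t * g ((n : ℝ) + u) + Q.eval (n : ℝ) : ℝ) : ℂ))‖} with hE
  have hE1 : ∀ N : ℕ, 1 ≤ N → M0 ≤ N → volume (E N) ≤ ENNReal.ofReal (K / (N : ℝ) ^ (B + 2)) := by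
    intro N hN hN2
    refine h1 N hN (T N) (hM0 N hN2) (fun i x => T N * gd (α - 1) g i x) ?_ ?_ g hg
    · intro i _ x hx
      have hx0 : 0 < x := by
        have : (1 : ℝ) ≤ N := by exact_mod_cast hN
        linarith [hx.1]
      exact (gd_der hg i hx0).const_mul (T N)
    · intro p _ x hx
      have hN' : (1 : ℝ) ≤ N := by exact_mod_cast hN
      have hx0 : 0 < x := by linarith [hx.1]
      have e : T N * gd (α - 1) g (p + 1) x -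
          T N * (∏ i ∈ Finset.range p, (α - 1 - i)) * x ^ (α - 1 - p) = 0 := by
        show T N * (fp (α - 1) p * x ^ (α - 1 - p)) - _ = 0
        rw [fp]
        ring
      rw [e, abs_zero]
      have hT0 : 0 < T N := by
        have h2 : 0 < T N * (N : ℝ) ^ α := lt_of_lt_of_le (by positivity) (hM0 N hN2)
        exact pos_of_mul_pos_left h2 (by positivity)
      positivity
  -- the sets from the index on
  set M1 : ℕ := max M0 1 with hM1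
  set G : ℕ → Set ℝ := fun N => if M1 ≤ N then E N else ∅ with hG
  have hsum : ∑' N, volume.restrict (Icc (0 : ℝ) 1) (G N) ≠ ⊤ := by
    have hle : ∀ N, volume.restrict (Icc (0 : ℝ) 1) (G N) ≤ ENNReal.ofReal (|K| / (N : ℝ) ^ 2) := by
      intro N
      by_cases hN : M1 ≤ N
      · have hN1 : 1 ≤ N := (le_max_right _ _).trans hN
        have hN' : (1 : ℝ) ≤ N := by exact_mod_cast hN1
        have e : G N = E N := by rw [hG]; simp [hN]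
        rw [e]
        refine (Measure.restrict_apply_le _ _).trans ((hE1 N hN1 ((le_max_left _ _).trans hN)).trans ?_)
        apply ENNReal.ofReal_le_ofReal
        calc K / (N : ℝ) ^ (B + 2) ≤ |K| / (N : ℝ) ^ (B + 2) := by
              have := le_abs_self K
              gcongr
          _ ≤ |K| / (N : ℝ) ^ 2 := by
              have : (N : ℝ) ^ 2 ≤ (N : ℝ) ^ (B + 2) := pow_le_pow_right₀ hN' (by omega)
              gcongr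
      · have e : G N = ∅ := by rw [hG]; simp [hN]
        rw [e, measure_empty]
        exact zero_le
    refine ne_top_of_le_ne_top ?_ (ENNReal.tsum_le_tsum hle)
    rw [← ENNReal.ofReal_tsum_of_nonneg (fun N => by positivity)]
    · exact ENNReal.ofReal_ne_top
    · have := (Real.summable_one_div_nat_pow (p := 2)).mpr (by norm_num)
      refine (this.mul_left |K|).congr (fun N => ?_)
      ring
  have hae := ae_eventually_notMem hsum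
  rw [ae_restrict_iff' measurableSet_Icc] at hae ⊢
  filter_upwards [hae] with u hu hu01
  filter_upwards [hu hu01, eventually_ge_atTop M1] with N hN hNM t ht0 ht1 Q hQ N1 N2 h2 h3 h4
  have hN1 : 1 ≤ N := (le_max_right _ _).trans hNM
  have hN' : (1 : ℝ) ≤ N := by exact_mod_cast hN1
  by_contra hcon
  push Not at hcon
  apply hN
  have e : G N = E N := by rw [hG]; simp [hNM]
  rw [e]
  refine ⟨hu01, t, ht0, ht1.trans (pow_le_pow_right₀ hN' (by omega)), Q, hQ, N1, N2, h2, h3, h4, ?_⟩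
  have e2 : ∀ n : ℕ, T N * g ((n : ℝ) + u) + t * g ((n : ℝ) + u) + Q.eval (n : ℝ) =
      (T N + t) * g ((n : ℝ) + u) + Q.eval (n : ℝ) := fun n => by ring
  simp only [e2]
  exact hcon

end Pool.Agent.Y933.KI
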