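import Pool.Agent.Y933.KI.Dyad

/-!
# Almost all translates of an admissible function
-/

set_option autoImplicit false

namespace Pool.Agent.Y933.KI

open Set MeasureTheory

lemma const_sign {g : ℝ → ℝ} {A B lo : ℝ} (hg : ContinuousOn g (Icc A B)) (hlo : 0 < lo)
    (h : ∀ x ∈ Icc A B, lo ≤ |g x|) :
    (∀ x ∈ Icc A B, lo ≤ g x) ∨ (∀ x ∈ Icc A B, g x ≤ -lo) := by
  by_contra hcon
  rw [not_or] at hcon
  obtain ⟨h1, h2⟩ := hcon
  push Not at h1 h2
  obtain ⟨x, hx, hx2⟩ := h1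
  obtain ⟨y, hy, hy2⟩ := h2
  have h3 : g x ≤ -lo := by
    rcases le_abs'.mp (h x hx) with h4 | h4
    · exact h4
    · linarith
  have h5 : lo ≤ g y := by
    rcases le_abs'.mp (h y hy) with h4 | h4
    · linarith
    · exact h4
  have h6 := isPreconnected_Icc.intermediate_value hx hy hg
  have h7 : (0 : ℝ) ∈ Icc (g x) (g y) := ⟨by linarith, by linarith⟩
  obtain ⟨z, hz, hz2⟩ := h6 h7
  have h8 := h z hz
  rw [hz2, abs_zero] at h8
  linarith

/-- an admissible function is regular, after extension to the line -/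
lemma reg_of_adm {c : ℕ → ℝ} (hc : ∀ j, 0 < c j) {N F : ℝ} {f : ℝ → ℝ} (hN : 2 ≤ N) (hF : N ≤ F)
    (hf : ContDiffOn ℝ (⊤ : ℕ∞) f (Icc N (2 * N)))
    (hlow : ∀ j : ℕ, ∀ x ∈ Icc N (2 * N),
      c j * F / N ^ j ≤ |iteratedDerivWithin j f (Icc N (2 * N)) x|) :
    ∃ g f1 f2 f3 : ℝ → ℝ, Continuous g ∧ (∀ x ∈ Icc N (2 * N), g x = f x) ∧
      Reg g f1 f2 f3 N (2 * N) (c 2 * F / N ^ 2) := by
  have hN0 : 0 < N := by linarith
  have hlt : N < 2 * N := by linarith
  have hF0 : 0 < F := by linarith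
  have hU : UniqueDiffOn ℝ (Icc N (2 * N)) := uniqueDiffOn_Icc hlt
  set S := Icc N (2 * N) with hS
  have hder : ∀ j : ℕ, ∀ x ∈ Ioo N (2 * N),
      HasDerivAt (iteratedDerivWithin j f S) (iteratedDerivWithin (j + 1) f S x) x := by
    intro j x hx
    have h1 : DifferentiableOn ℝ (iteratedDerivWithin j f S) S :=
      hf.differentiableOn_iteratedDerivWithin (by exact_mod_cast ENat.natCast_lt_top j) hU
    have h2 := (h1 x (Ioo_subset_Icc_self hx)).hasDerivWithinAt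
    rw [iteratedDerivWithin_succ]
    exact h2.hasDerivAt (Icc_mem_nhds hx.1 hx.2)
  have hcont : ∀ j : ℕ, ContinuousOn (iteratedDerivWithin j f S) S := fun j =>
    (hf.differentiableOn_iteratedDerivWithin (by exact_mod_cast ENat.natCast_lt_top j) hU).continuousOn
  have hfc : ContinuousOn f S := hf.continuousOn
  refine ⟨IccExtend hlt.le (S.domRestrict f), iteratedDerivWithin 1 f S, iteratedDerivWithin 2 f S,
    iteratedDerivWithin 3 f S, ?_, ?_, ?_⟩
  · exact (continuousOn_iff_continuous_domRestrict.mp hfc).Icc_extend'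
  · intro x hx
    rw [IccExtend_of_mem hlt.le _ hx]
    rfl
  · have hext : ∀ x ∈ S, IccExtend hlt.le (S.domRestrict f) x = f x := by
      intro x hx
      rw [IccExtend_of_mem hlt.le _ hx]
      rfl
    have hs2 := const_sign (hcont 2) (lo := c 2 * F / N ^ 2)
      (by have := hc 2; positivity) (fun x hx => hlow 2 x hx)
    have hs3 := const_sign (hcont 3) (lo := c 3 * F / N ^ 3)
      (by have := hc 3; positivity) (fun x hx => hlow 3 x hx)
    have hp3 : 0 < c 3 * F / N ^ 3 := by have := hc 3; positivity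
    refine ⟨?_, ?_, hder 1, hder 2, by have := hc 2; positivity, ?_, ?_⟩
    · exact hfc.congr hext
    · intro x hx
      have h1 := hder 0 x hx
      rw [iteratedDerivWithin_zero, zero_add] at h1
      refine h1.congr_of_eventuallyEq ?_
      filter_upwards [Icc_mem_nhds hx.1 hx.2] with y hy
      exact hext y hy
    · rcases hs2 with h | h
      · exact Or.inl (fun x hx => h x (Ioo_subset_Icc_self hx))
      · exact Or.inr (fun x hx => h x (Ioo_subset_Icc_self hx))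
    · rcases hs3 with h | h
      · exact Or.inl (fun x hx => hp3.le.trans (h x (Ioo_subset_Icc_self hx)))
      · exact Or.inr (fun x hx => (h x (Ioo_subset_Icc_self hx)).trans (by linarith))

/-- The bound for almost all translates of an admissible function. -/
theorem general (c : ℕ → ℝ) (hc : ∀ j, 0 < c j) :
    ∃ K : ℝ, ∀ N F : ℝ, ∀ f : ℝ → ℝ, 2 ≤ N → N ≤ F →
      ContDiffOn ℝ (⊤ : ℕ∞) f (Icc N (2 * N)) →
      (∀ j : ℕ, ∀ x ∈ Icc N (2 * N),
        c j * F / N ^ j ≤ |iteratedDerivWithin j f (Icc N (2 * N)) x|) →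
      ∀ (r : ℕ → ℝ) (a b V : ℝ), 0 ≤ a → a ≤ b → 0 < V →
        volume {u : ℝ | u ∈ Icc a b ∧ ∃ N1 N2 : ℕ, N ≤ N1 ∧ (N2 : ℝ) + u ≤ 2 * N ∧
          N ^ (1 / 2 : ℝ) * V < ‖∑ n ∈ Finset.Icc N1 N2,
            Complex.exp (2 * (Real.pi : ℂ) * Complex.I * ((f ((n : ℝ) + u) + r n : ℝ) : ℂ))‖} ≤
        ENNReal.ofReal (K * (1 + Real.log N) ^ 3 * ((b - a) + N ^ 2 / F) / V ^ 2) := by
  refine ⟨864 * (1 + 1 / c 2), fun N F f hN hF hf hlow r a b V ha hab hV => ?_⟩
  obtain ⟨g, f1, f2, f3, hgc, hgf, hreg⟩ := reg_of_adm hc hN hF hf hlow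
  have hc2 := hc 2
  have hN0 : 0 < N := by linarith
  have hF0 : 0 < F := by linarith
  have hNs : 0 < N ^ (1 / 2 : ℝ) := Real.rpow_pos_of_pos hN0 _
  set q := ⌈N⌉₊ with hq
  set M := ⌊N⌋₊ + 1 with hM
  set L := Nat.clog 2 M with hL
  have hML : M ≤ 2 ^ L := Nat.le_pow_clog (by norm_num) M
  have hM2 : 1 < M := by
    have : 1 ≤ ⌊N⌋₊ := Nat.le_floor (by push_cast; linarith)
    omega
  have hMN : (M : ℝ) ≤ N + 1 := by
    rw [hM]
    push_cast
    linarith [Nat.floor_le hN0.le]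
  have hLN : (2 : ℝ) ^ L ≤ 4 * N := by
    have h1 : 2 ^ L.pred < M := Nat.pow_pred_clog_lt_self (by norm_num) hM2
    have h2 : 0 < L := Nat.clog_pos (by norm_num) hM2
    have h3 : 2 ^ L = 2 * 2 ^ L.pred := by
      rw [← pow_succ', Nat.pred_eq_sub_one, Nat.sub_add_cancel h2]
    have h4 : (2 : ℝ) ^ L = 2 * 2 ^ L.pred := by exact_mod_cast h3
    have h5 : ((2 : ℝ) ^ L.pred) < M := by exact_mod_cast h1
    rw [h4]
    linarith
  have hlogN : 0 ≤ Real.log N := Real.log_nonneg (by linarith)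
  have hLlog : (L : ℝ) + 1 ≤ 3 * (1 + Real.log N) := by
    have h1 : Real.log ((2 : ℝ) ^ L) ≤ Real.log (4 * N) := Real.log_le_log (by positivity) hLN
    rw [Real.log_pow, Real.log_mul (by norm_num) hN0.ne'] at h1
    have h2 : Real.log 4 = 2 * Real.log 2 := by
      rw [show (4 : ℝ) = 2 ^ 2 by norm_num, Real.log_pow]
      norm_num
    rw [h2] at h1
    have h3 := Real.log_two_gt_d9
    have h4 : ((L : ℝ) - 2) * Real.log 2 ≤ Real.log N := by linarith
    by_cases h5 : (L : ℝ) ≤ 2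
    · linarith
    · have h6 : ((L : ℝ) - 2) * (1 / 2) ≤ ((L : ℝ) - 2) * Real.log 2 := by
        apply mul_le_mul_of_nonneg_left (by linarith) (by linarith)
      linarith
  have key := exc hreg hgc r (q := q) (Nat.le_ceil N) ha hab L (V := N ^ (1 / 2 : ℝ) * V) (by positivity)
  refine (measure_mono ?_).trans (key.trans ?_)
  · rintro u ⟨hu, N1, N2, h1, h2, h3⟩
    refine ⟨hu, N1, N2, Nat.ceil_le.mpr h1, ?_, ?_⟩
    · have h4 : (N2 : ℝ) ≤ 2 * N := by linarith [hu.1]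
      have h5 : (N2 : ℝ) ≤ N + q := by linarith [Nat.le_ceil N]
      have h6 : N2 ≤ ⌊N⌋₊ + q := by
        have h7 : ((N2 : ℝ) - q) ≤ N := by linarith
        by_cases h8 : N2 ≤ q
        · omega
        · have h9 : ((N2 - q : ℕ) : ℝ) ≤ N := by
            rw [Nat.cast_sub (by omega)]
            exact h7
          have := Nat.le_floor h9
          omega
      omega
    · have h4 : ∑ n ∈ Finset.Icc N1 N2, zt g r (2 * N) n u = ∑ n ∈ Finset.Icc N1 N2,
          Complex.exp (2 * (Real.pi : ℂ) * Complex.I * ((f ((n : ℝ) + u) + r n : ℝ) : ℂ)) := by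
        refine Finset.sum_congr rfl (fun n hn => ?_)
        obtain ⟨hn1, hn2⟩ := Finset.mem_Icc.mp hn
        have h5 : (N1 : ℝ) ≤ n := by exact_mod_cast hn1
        have h6 : (n : ℝ) ≤ N2 := by exact_mod_cast hn2
        rw [zt, if_pos (by linarith), hgf]
        exact ⟨by linarith [hu.1], by linarith⟩
      rw [h4]
      exact h3
  · apply ENNReal.ofReal_le_ofReal
    have hsq : (N ^ (1 / 2 : ℝ) * V) ^ 2 = N * V ^ 2 := by
      rw [mul_pow, ← Real.rpow_natCast (N ^ (1 / 2 : ℝ)) 2, ← Real.rpow_mul hN0.le]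
      norm_num
    rw [hsq, div_le_div_iff₀ (by positivity) (by positivity)]
    have hba : 0 ≤ b - a := by linarith
    have e1 : 1 / (c 2 * F / N ^ 2) = 1 / c 2 * (N ^ 2 / F) := by
      field_simp
    rw [e1]
    have hp : 0 ≤ N ^ 2 / F := by positivity
    have h1 : (b - a) + 1 / c 2 * (N ^ 2 / F) ≤ (1 + 1 / c 2) * ((b - a) + N ^ 2 / F) := by
      have : 0 ≤ 1 / c 2 := by positivity
      nlinarith [mul_nonneg this hba]
    have h2 : ((L : ℝ) + 1) ^ 3 ≤ 27 * (1 + Real.log N) ^ 3 := by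
      calc ((L : ℝ) + 1) ^ 3 ≤ (3 * (1 + Real.log N)) ^ 3 :=
            pow_le_pow_left₀ (by positivity) hLlog 3
        _ = _ := by ring
    have h0 : 0 ≤ (b - a) + 1 / c 2 * (N ^ 2 / F) := by positivity
    calc 8 * ((L : ℝ) + 1) ^ 3 * 2 ^ L * ((b - a) + 1 / c 2 * (N ^ 2 / F)) * V ^ 2
        ≤ 8 * (27 * (1 + Real.log N) ^ 3) * (4 * N) * ((1 + 1 / c 2) * ((b - a) + N ^ 2 / F)) *
          V ^ 2 := by gcongr
      _ = 864 * (1 + 1 / c 2) * (1 + Real.log N) ^ 3 * (b - a + N ^ 2 / F) * (N * V ^ 2) := by ring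

end Pool.Agent.Y933.KI
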