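import Pool.Agent.Y933.KI.Osc

/-!
# The mean square of a block
-/

set_option autoImplicit false

namespace Pool.Agent.Y933.KI

open Set MeasureTheory intervalIntegral

/-- the term of index `n` translated by `u`, it is zero when it leaves the interval -/
noncomputable def zt (g : ℝ → ℝ) (q : ℕ → ℝ) (B : ℝ) (n : ℕ) (u : ℝ) : ℂ :=
  if (n : ℝ) + u ≤ B then
    Complex.exp (2 * (Real.pi : ℂ) * Complex.I * ((g ((n : ℝ) + u) + q n : ℝ) : ℂ))
  else 0

lemma zt_re (g : ℝ → ℝ) (q : ℕ → ℝ) (B : ℝ) (n : ℕ) (u : ℝ) : (zt g q B n u).re =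
    if (n : ℝ) + u ≤ B then Real.cos (2 * Real.pi * (g ((n : ℝ) + u) + q n)) else 0 := by
  rw [zt]
  split_ifs
  · have : 2 * (Real.pi : ℂ) * Complex.I * ((g ((n : ℝ) + u) + q n : ℝ) : ℂ) =
        ((2 * Real.pi * (g ((n : ℝ) + u) + q n) : ℝ) : ℂ) * Complex.I := by push_cast; ring
    rw [this, Complex.exp_ofReal_mul_I_re]
  · rfl

lemma zt_im (g : ℝ → ℝ) (q : ℕ → ℝ) (B : ℝ) (n : ℕ) (u : ℝ) : (zt g q B n u).im =
    if (n : ℝ) + u ≤ B then Real.sin (2 * Real.pi * (g ((n : ℝ) + u) + q n)) else 0 := by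
  rw [zt]
  split_ifs
  · have : 2 * (Real.pi : ℂ) * Complex.I * ((g ((n : ℝ) + u) + q n : ℝ) : ℂ) =
        ((2 * Real.pi * (g ((n : ℝ) + u) + q n) : ℝ) : ℂ) * Complex.I := by push_cast; ring
    rw [this, Complex.exp_ofReal_mul_I_im]
  · rfl

lemma zt_norm (g : ℝ → ℝ) (q : ℕ → ℝ) (B : ℝ) (n : ℕ) (u : ℝ) : ‖zt g q B n u‖ ≤ 1 := by
  rw [zt]
  split_ifs
  · have : 2 * (Real.pi : ℂ) * Complex.I * ((g ((n : ℝ) + u) + q n : ℝ) : ℂ) =
        ((2 * Real.pi * (g ((n : ℝ) + u) + q n) : ℝ) : ℂ) * Complex.I := by push_cast; ring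
    rw [this, Complex.norm_exp_ofReal_mul_I]
  · simp

lemma zt_meas {g : ℝ → ℝ} (hg : Continuous g) (q : ℕ → ℝ) (B : ℝ) (n : ℕ) : Measurable (zt g q B n) := by
  unfold zt
  refine Measurable.ite ?_ ?_ measurable_const
  · exact measurableSet_le (by fun_prop) measurable_const
  · exact Continuous.measurable (by fun_prop)

/-- the sum of a block -/
noncomputable def bs (g : ℝ → ℝ) (q : ℕ → ℝ) (B : ℝ) (P H : ℕ) (u : ℝ) : ℂ :=
  ∑ i ∈ Finset.range H, zt g q B (P + i) u

lemma bs_meas {g : ℝ → ℝ} (hg : Continuous g) (q : ℕ → ℝ) (B : ℝ) (P H : ℕ) : Measurable (bs g q B P H) := by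
  unfold bs
  exact Finset.measurable_sum _ (fun i _ => zt_meas hg q B (P + i))

lemma bs_norm (g : ℝ → ℝ) (q : ℕ → ℝ) (B : ℝ) (P H : ℕ) (u : ℝ) : ‖bs g q B P H u‖ ≤ H := by
  unfold bs
  refine (norm_sum_le_of_le _ (fun i _ => zt_norm g q B (P + i) u)).trans ?_
  simp

lemma ii {φ : ℝ → ℝ} (hm : Measurable φ) {M : ℝ} (hb : ∀ u, |φ u| ≤ M) (a b : ℝ) :
    IntervalIntegrable φ volume a b := by
  rw [intervalIntegrable_iff]
  refine MeasureTheory.Measure.integrableOn_of_bounded (M := M) ?_ hm.aestronglyMeasurable ?_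
  · simp [uIoc]
  · exact Filter.Eventually.of_forall (fun u => by simpa using hb u)

/-- the product of two terms -/
noncomputable def ee (g : ℝ → ℝ) (q : ℕ → ℝ) (B : ℝ) (n m : ℕ) (u : ℝ) : ℝ :=
  (zt g q B n u).re * (zt g q B m u).re + (zt g q B n u).im * (zt g q B m u).im

lemma ee_meas {g : ℝ → ℝ} (hg : Continuous g) (q : ℕ → ℝ) (B : ℝ) (n m : ℕ) : Measurable (ee g q B n m) := by
  have h1 := zt_meas hg q B n
  have h2 := zt_meas hg q B m
  unfold ee
  fun_prop

lemma ee_eq (g : ℝ → ℝ) (q : ℕ → ℝ) (B : ℝ) {n m : ℕ} (hmn : m ≤ n) (u : ℝ) : ee g q B n m u =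
    ({u : ℝ | u ≤ B - n}).indicator
      (fun u => Real.cos (2 * Real.pi * (g ((n : ℝ) + u) - g ((m : ℝ) + u)) +
        2 * Real.pi * (q n - q m))) u := by
  have h : (m : ℝ) ≤ n := by exact_mod_cast hmn
  rw [ee, zt_re, zt_re, zt_im, zt_im, Set.indicator_apply]
  by_cases h1 : (n : ℝ) + u ≤ B
  · have h2 : (m : ℝ) + u ≤ B := by linarith
    have h3 : u ∈ {u : ℝ | u ≤ B - n} := by
      show u ≤ B - n
      linarith
    have e : 2 * Real.pi * (g ((n : ℝ) + u) - g ((m : ℝ) + u)) + 2 * Real.pi * (q n - q m) =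
        2 * Real.pi * (g ((n : ℝ) + u) + q n) - 2 * Real.pi * (g ((m : ℝ) + u) + q m) := by ring
    rw [if_pos h1, if_pos h2, if_pos h3, if_pos h1, if_pos h2, e, Real.cos_sub]
  · have h3 : u ∉ {u : ℝ | u ≤ B - n} := by
      intro h3
      have h4 : u ≤ B - n := h3
      exact h1 (by linarith)
    rw [if_neg h1, if_neg h3, if_neg h1]
    simp

lemma ee_abs (g : ℝ → ℝ) (q : ℕ → ℝ) (B : ℝ) {n m : ℕ} (hmn : m ≤ n) (u : ℝ) : |ee g q B n m u| ≤ 1 := by
  rw [ee_eq g q B hmn, Set.indicator_apply]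
  split_ifs
  · exact Real.abs_cos_le_one _
  · simp

/-- the integral of the product of two terms -/
lemma ee_int {g f1 f2 f3 : ℝ → ℝ} {A B lo : ℝ} (h : Reg g f1 f2 f3 A B lo) (q : ℕ → ℝ)
    {n m : ℕ} (hmn : m < n) (hA : A ≤ m) {a b : ℝ} (ha : 0 ≤ a) (hab : a ≤ b) :
    ∫ u in a..b, ee g q B n m u ≤ 1 / (((n : ℝ) - m) * lo) := by
  have hlt : (m : ℝ) < n := by exact_mod_cast hmn
  have hlo := h.pos
  have hnn : (0 : ℝ) ≤ 1 / (((n : ℝ) - m) * lo) := by
    have : 0 < (n : ℝ) - m := by linarith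
    positivity
  have e1 : ∀ u, ee g q B n m u = ({u : ℝ | u ≤ B - n}).indicator
      (fun u => Real.cos (2 * Real.pi * (g ((n : ℝ) + u) - g ((m : ℝ) + u)) +
        2 * Real.pi * (q n - q m))) u :=
    fun u => ee_eq g q B hmn.le u
  simp only [e1]
  rcases lt_or_ge (B - n) a with hc | hc
  · have : ∫ u in a..b, ({u : ℝ | u ≤ B - n}).indicator
        (fun u => Real.cos (2 * Real.pi * (g ((n : ℝ) + u) - g ((m : ℝ) + u)) +
        2 * Real.pi * (q n - q m))) u =
        ∫ u in a..b, (0 : ℝ) := by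
      refine intervalIntegral.integral_congr (fun u hu => ?_)
      rw [uIcc_of_le hab] at hu
      have : u ∉ {u : ℝ | u ≤ B - n} := by
        intro h3
        have h4 : u ≤ B - n := h3
        linarith [hu.1]
      simp [Set.indicator_of_notMem this]
    rw [this]
    simpa using hnn
  · rcases le_or_gt (B - n) b with hd | hd
    · rw [intervalIntegral.integral_indicator ⟨hc, hd⟩]
      refine (le_abs_self _).trans ?_
      exact pair_bd h _ hlt hc (by linarith) (by linarith)
    · have : ∫ u in a..b, ({u : ℝ | u ≤ B - n}).indicator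
          (fun u => Real.cos (2 * Real.pi * (g ((n : ℝ) + u) - g ((m : ℝ) + u)) +
        2 * Real.pi * (q n - q m))) u =
          ∫ u in a..b, Real.cos (2 * Real.pi * (g ((n : ℝ) + u) - g ((m : ℝ) + u)) +
        2 * Real.pi * (q n - q m)) := by
        refine intervalIntegral.integral_congr (fun u hu => ?_)
        rw [uIcc_of_le hab] at hu
        have : u ∈ {u : ℝ | u ≤ B - n} := by
          show u ≤ B - n
          linarith [hu.2]
        simp [Set.indicator_of_mem this]
      rw [this]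
      refine (le_abs_self _).trans ?_
      exact pair_bd h _ hlt hab (by linarith) (by linarith)

/-- harmonic numbers -/
noncomputable def hm (H : ℕ) : ℝ := ∑ i ∈ Finset.range H, 1 / ((i : ℝ) + 1)

lemma hm_succ (H : ℕ) : hm (H + 1) = hm H + 1 / ((H : ℝ) + 1) := by
  rw [hm, Finset.sum_range_succ]
  rfl

lemma hm_nonneg (H : ℕ) : 0 ≤ hm H := Finset.sum_nonneg (fun i _ => by positivity)

lemma hm_reflect (H : ℕ) : ∑ i ∈ Finset.range H, 1 / ((H : ℝ) - i) = hm H := by
  rw [hm, ← Finset.sum_range_reflect]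
  refine Finset.sum_congr rfl (fun i hi => ?_)
  have : i < H := Finset.mem_range.mp hi
  have h2 : ((H - 1 - i : ℕ) : ℝ) = (H : ℝ) - 1 - i := by
    rw [Nat.sub_sub, Nat.cast_sub (by omega)]
    push_cast
    ring
  rw [h2]
  congr 1
  ring

lemma hm_pow (l : ℕ) : hm (2 ^ l) ≤ l + 1 := by
  induction l with
  | zero => simp [hm]
  | succ l ih =>
    have e : hm (2 ^ (l + 1)) = hm (2 ^ l) +
        ∑ i ∈ Finset.range (2 ^ l), 1 / (((2 ^ l + i : ℕ) : ℝ) + 1) := by
      rw [hm, pow_succ, mul_two, Finset.sum_range_add]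
      rfl
    have h2 : ∑ i ∈ Finset.range (2 ^ l), 1 / (((2 ^ l + i : ℕ) : ℝ) + 1) ≤ 1 := by
      have h3 : ∀ i ∈ Finset.range (2 ^ l), 1 / (((2 ^ l + i : ℕ) : ℝ) + 1) ≤ 1 / 2 ^ l := by
        intro i _
        apply one_div_le_one_div_of_le (by positivity)
        push_cast
        have : (0 : ℝ) ≤ i := Nat.cast_nonneg i
        linarith
      refine (Finset.sum_le_sum h3).trans ?_
      rw [Finset.sum_const, Finset.card_range, nsmul_eq_mul]
      push_cast
      rw [mul_one_div_cancel (by positivity)]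
    rw [e]
    have h4 : ((l + 1 : ℕ) : ℝ) = l + 1 := by push_cast; rfl
    rw [h4]
    linarith

/-- the mean square of a block -/
lemma bs_int {g f1 f2 f3 : ℝ → ℝ} {A B lo : ℝ} (h : Reg g f1 f2 f3 A B lo) (hg : Continuous g)
    (q : ℕ → ℝ)
    {P : ℕ} (hP : A ≤ P) {a b : ℝ} (ha : 0 ≤ a) (hab : a ≤ b) (H : ℕ) :
    ∫ u in a..b, ‖bs g q B P H u‖ ^ 2 ≤ H * (b - a) + 2 * H * hm H / lo := by
  have hlo := h.pos
  induction H with
  | zero => simp [bs]
  | succ H ih =>
    have e1 : ∀ u, ‖bs g q B P (H + 1) u‖ ^ 2 = ‖bs g q B P H u‖ ^ 2 + ee g q B (P + H) (P + H) u +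
        2 * ∑ i ∈ Finset.range H, ee g q B (P + H) (P + i) u := by
      intro u
      have e2 : bs g q B P (H + 1) u = bs g q B P H u + zt g q B (P + H) u := by
        rw [bs, Finset.sum_range_succ]
        rfl
      rw [e2, Complex.sq_norm, Complex.sq_norm, Complex.normSq_apply, Complex.normSq_apply,
        Complex.add_re, Complex.add_im]
      have e3 : ∑ i ∈ Finset.range H, ee g q B (P + H) (P + i) u =
          (zt g q B (P + H) u).re * (bs g q B P H u).re + (zt g q B (P + H) u).im * (bs g q B P H u).im := by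
        rw [bs, Complex.re_sum, Complex.im_sum, Finset.mul_sum, Finset.mul_sum,
          ← Finset.sum_add_distrib]
        rfl
      rw [e3, ee]
      ring
    have i1 : IntervalIntegrable (fun u => ‖bs g q B P H u‖ ^ 2) volume a b := by
      refine ii ((bs_meas hg q B P H).norm.pow_const 2) (M := (H : ℝ) ^ 2) (fun u => ?_) a b
      rw [abs_of_nonneg (by positivity)]
      exact pow_le_pow_left₀ (norm_nonneg _) (bs_norm g q B P H u) 2
    have i2 : ∀ i, i ≤ H → IntervalIntegrable (ee g q B (P + H) (P + i)) volume a b := fun i hi =>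
      ii (ee_meas hg q B _ _) (fun u => ee_abs g q B (by omega) u) a b
    have i3 : IntervalIntegrable (fun u => 2 * ∑ i ∈ Finset.range H, ee g q B (P + H) (P + i) u)
        volume a b := by
      refine IntervalIntegrable.const_mul ?_ 2
      have := IntervalIntegrable.sum (Finset.range H) (f := fun i => ee g q B (P + H) (P + i))
        (μ := volume) (a := a) (b := b)
        (fun i hi => i2 i (Finset.mem_range.mp hi).le)
      refine this.congr (fun u _ => ?_)
      rw [Finset.sum_apply]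
    simp only [e1]
    rw [intervalIntegral.integral_add (i1.add (i2 H le_rfl)) i3,
      intervalIntegral.integral_add i1 (i2 H le_rfl), intervalIntegral.integral_const_mul,
      intervalIntegral.integral_finsetSum (fun i hi => i2 i (Finset.mem_range.mp hi).le)]
    have b1 : ∫ u in a..b, ee g q B (P + H) (P + H) u ≤ b - a := by
      calc ∫ u in a..b, ee g q B (P + H) (P + H) u ≤ ∫ u in a..b, (1 : ℝ) :=
            intervalIntegral.integral_mono_on hab (i2 H le_rfl) (by simp)
              (fun u _ => (le_abs_self _).trans (ee_abs g q B le_rfl u))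
        _ = b - a := by simp
    have b2 : ∑ i ∈ Finset.range H, ∫ u in a..b, ee g q B (P + H) (P + i) u ≤ hm H / lo := by
      rw [← hm_reflect, Finset.sum_div]
      refine Finset.sum_le_sum (fun i hi => ?_)
      have hi2 : i < H := Finset.mem_range.mp hi
      refine (ee_int h q (by omega) (hP.trans (by exact_mod_cast Nat.le_add_right P i)) ha hab).trans ?_
      rw [div_div]
      push_cast
      have : (P : ℝ) + H - (P + i) = H - i := by ring
      rw [this]
    have b3 : 2 * ((H + 1 : ℕ) : ℝ) * hm (H + 1) / lo ≥ 2 * H * hm H / lo + 2 * (hm H / lo) := by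
      rw [hm_succ]
      push_cast
      have h1 : 2 * ((H : ℝ) + 1) * (hm H + 1 / ((H : ℝ) + 1)) / lo =
          2 * H * hm H / lo + 2 * (hm H / lo) + 2 / lo := by
        field_simp
      rw [h1]
      have : 0 < 2 / lo := by positivity
      linarith
    have e5 : (((H + 1 : ℕ) : ℝ)) * (b - a) = H * (b - a) + (b - a) := by
      push_cast
      ring
    rw [e5]
    linarith

end Pool.Agent.Y933.KI
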