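import Pool.Agent.Y933.KI.Vand
import Pool.Agent.Y933.KI.Chain

/-!
# Moments for the power functions
-/

set_option autoImplicit false

namespace Pool.Agent.Y933.KI

open Set MeasureTheory

/-- the differences of sums of powers -/
noncomputable def DD (β : ℝ) {k : ℕ} (x y : Fin k → ℕ) (i : ℕ) (u : ℝ) : ℝ :=
  ∑ l, ((x l : ℝ) + u) ^ (β - i) - ∑ l, ((y l : ℝ) + u) ^ (β - i)

/-- the difference of multiplicities -/
def mu {k : ℕ} (x y : Fin k → ℕ) (j : ℕ) : ℤ :=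
  ((Finset.univ.filter (fun l => x l = j)).card : ℤ) - (Finset.univ.filter (fun l => y l = j)).card

lemma DD_der (β : ℝ) {k : ℕ} (x y : Fin k → ℕ) (hx : ∀ l, 1 ≤ x l) (hy : ∀ l, 1 ≤ y l) (i : ℕ)
    {u : ℝ} (hu : u ∈ Icc (0 : ℝ) 1) :
    HasDerivAt (DD β x y i) ((β - i) * DD β x y (i + 1) u) u := by
  have h1 : ∀ n : ℕ, 1 ≤ n → HasDerivAt (fun u : ℝ => ((n : ℝ) + u) ^ (β - i))
      ((β - i) * ((n : ℝ) + u) ^ (β - (i + 1 : ℕ))) u := by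
    intro n hn
    have hn' : (1 : ℝ) ≤ n := by exact_mod_cast hn
    have h2 := (Real.hasDerivAt_rpow_const (x := (n : ℝ) + u) (p := β - i)
      (Or.inl (by linarith [hu.1]))).comp_const_add (n : ℝ) u
    refine h2.congr_deriv ?_
    congr 2
    push_cast
    ring
  have h3 : HasDerivAt (fun u => ∑ l, ((x l : ℝ) + u) ^ (β - i))
      (∑ l, (β - i) * ((x l : ℝ) + u) ^ (β - (i + 1 : ℕ))) u :=
    HasDerivAt.fun_sum (fun l _ => h1 (x l) (hx l))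
  have h4 : HasDerivAt (fun u => ∑ l, ((y l : ℝ) + u) ^ (β - i))
      (∑ l, (β - i) * ((y l : ℝ) + u) ^ (β - (i + 1 : ℕ))) u :=
    HasDerivAt.fun_sum (fun l _ => h1 (y l) (hy l))
  refine (h3.sub h4).congr_deriv ?_
  rw [DD, mul_sub, Finset.mul_sum, Finset.mul_sum]

lemma pw_nf {β : ℝ} {b : ℕ} (hb : |β| ≤ b) {N : ℕ} (hN : 1 ≤ N) {z : ℝ} (h1 : (N : ℝ) ≤ z)
    (h2 : z ≤ 3 * N) : ((3 : ℝ) ^ b)⁻¹ * (N : ℝ) ^ β ≤ z ^ β ∧ z ^ β ≤ (3 : ℝ) ^ b * (N : ℝ) ^ β := by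
  have hN' : (1 : ℝ) ≤ N := by exact_mod_cast hN
  have hN0 : (0 : ℝ) < N := by linarith
  have hz : 0 < z := by linarith
  have h3 : 1 ≤ z / N := by rw [le_div_iff₀ hN0]; linarith
  have h4 : z / N ≤ 3 := by rw [div_le_iff₀ hN0]; exact h2
  have h5 : z ^ β = (z / N) ^ β * (N : ℝ) ^ β := by
    rw [← Real.mul_rpow (by positivity) hN0.le, div_mul_cancel₀ _ hN0.ne']
  have h6 : 0 < (N : ℝ) ^ β := Real.rpow_pos_of_pos hN0 β
  rw [h5]
  constructor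
  · refine mul_le_mul_of_nonneg_right ?_ h6.le
    calc ((3 : ℝ) ^ b)⁻¹ ≤ ((z / N) ^ b)⁻¹ := by
          apply inv_anti₀ (by positivity)
          exact pow_le_pow_left₀ (by linarith) h4 b
      _ = (z / N) ^ (-(b : ℝ)) := by rw [Real.rpow_neg (by linarith), Real.rpow_natCast]
      _ ≤ (z / N) ^ β := Real.rpow_le_rpow_of_exponent_le h3 (by linarith [neg_abs_le β])
  · refine mul_le_mul_of_nonneg_right ?_ h6.le
    calc (z / N) ^ β ≤ (z / N) ^ (b : ℝ) :=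
          Real.rpow_le_rpow_of_exponent_le h3 (by linarith [le_abs_self β])
      _ = (z / N) ^ b := Real.rpow_natCast _ _
      _ ≤ 3 ^ b := pow_le_pow_left₀ (by linarith) h4 b

lemma pw_le {β : ℝ} {b : ℕ} (hb : |β| ≤ b) {N n : ℕ} (hn : N ≤ n) (hN : 1 ≤ N) (hn2 : n ≤ 2 * N) (i : ℕ)
    {u : ℝ} (hu : u ∈ Icc (0 : ℝ) 1) :
    ((n : ℝ) + u) ^ (β - i) ≤ (3 : ℝ) ^ b * (N : ℝ) ^ β := by
  have hN' : (1 : ℝ) ≤ N := by exact_mod_cast hN
  have hn' : (N : ℝ) ≤ n := by exact_mod_cast hn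
  have hn2' : (n : ℝ) ≤ 2 * N := by exact_mod_cast hn2
  have h1 : 1 ≤ (n : ℝ) + u := by linarith [hu.1]
  have hi : (0 : ℝ) ≤ i := Nat.cast_nonneg i
  refine (Real.rpow_le_rpow_of_exponent_le h1 (by linarith : β - i ≤ β)).trans ?_
  exact (pw_nf hb hN (by linarith [hu.1]) (by linarith [hu.2])).2

lemma pw_ge {β : ℝ} {b : ℕ} (hb : |β| ≤ b) {N n : ℕ} (hn : N ≤ n) (hN : 1 ≤ N) (hn2 : n ≤ 2 * N)
    {u : ℝ} (hu : u ∈ Icc (0 : ℝ) 1) :
    ((3 : ℝ) ^ b)⁻¹ * (N : ℝ) ^ β ≤ ((n : ℝ) + u) ^ β := by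
  have hN' : (1 : ℝ) ≤ N := by exact_mod_cast hN
  have hn' : (N : ℝ) ≤ n := by exact_mod_cast hn
  have hn2' : (n : ℝ) ≤ 2 * N := by exact_mod_cast hn2
  exact (pw_nf hb hN (by linarith [hu.1]) (by linarith [hu.2])).1

lemma DD_bd {β : ℝ} {b : ℕ} (hb : |β| ≤ b) {N k : ℕ} (hN : 1 ≤ N) (x y : Fin k → ℕ)
    (hx : ∀ l, N ≤ x l ∧ x l ≤ 2 * N) (hy : ∀ l, N ≤ y l ∧ y l ≤ 2 * N) (i : ℕ)
    {u : ℝ} (hu : u ∈ Icc (0 : ℝ) 1) :
    |DD β x y i u| ≤ 2 * k * ((3 : ℝ) ^ b * (N : ℝ) ^ β) := by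
  have hN' : (1 : ℝ) ≤ N := by exact_mod_cast hN
  have h1 : ∀ z : Fin k → ℕ, (∀ l, N ≤ z l ∧ z l ≤ 2 * N) →
      0 ≤ ∑ l, ((z l : ℝ) + u) ^ (β - i) ∧
      ∑ l, ((z l : ℝ) + u) ^ (β - i) ≤ k * ((3 : ℝ) ^ b * (N : ℝ) ^ β) := by
    intro z hz
    constructor
    · exact Finset.sum_nonneg (fun l _ => Real.rpow_nonneg (by have := hu.1; positivity) _)
    · calc ∑ l, ((z l : ℝ) + u) ^ (β - i) ≤ ∑ l : Fin k, (3 : ℝ) ^ b * (N : ℝ) ^ β :=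
            Finset.sum_le_sum (fun l _ => pw_le hb (hz l).1 hN (hz l).2 i hu)
        _ = k * ((3 : ℝ) ^ b * (N : ℝ) ^ β) := by
            rw [Finset.sum_const, Finset.card_univ, Fintype.card_fin, nsmul_eq_mul]
  obtain ⟨h2, h3⟩ := h1 x hx
  obtain ⟨h4, h5⟩ := h1 y hy
  rw [DD, abs_le]
  constructor <;> nlinarith

lemma sum_fib {k : ℕ} (x : Fin k → ℕ) (A : Finset ℕ) (hA : ∀ l, x l ∈ A) (G : ℕ → ℝ) :
    ∑ l, G (x l) = ∑ j ∈ A, ((Finset.univ.filter (fun l => x l = j)).card : ℝ) * G j := by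
  rw [← Finset.sum_fiberwise_of_maps_to' (s := Finset.univ) (t := A) (g := x) (fun l _ => hA l)]
  refine Finset.sum_congr rfl (fun j _ => ?_)
  rw [Finset.sum_const, nsmul_eq_mul]

lemma DD_low {β : ℝ} {b : ℕ} (hb : |β| ≤ b) {N k : ℕ} (hN : 1 ≤ N) (x y : Fin k → ℕ)
    (hx : ∀ l, N ≤ x l ∧ x l ≤ 2 * N) (hy : ∀ l, N ≤ y l ∧ y l ≤ 2 * N)
    (hne : ∃ j, mu x y j ≠ 0) {u : ℝ} (hu : u ∈ Icc (0 : ℝ) 1) :
    ∃ i < 2 * k, ((3 : ℝ) ^ b)⁻¹ * (N : ℝ) ^ β * (1 / (18 * N ^ 2 : ℝ)) ^ (2 * k) ≤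
      |DD β x y i u| := by
  classical
  have hN' : (1 : ℝ) ≤ N := by exact_mod_cast hN
  set A : Finset ℕ := Finset.univ.image x ∪ Finset.univ.image y with hA
  set J : Finset ℕ := A.filter (fun j => mu x y j ≠ 0) with hJ
  obtain ⟨j0, hj0⟩ := hne
  have hmemA : ∀ j ∈ A, N ≤ j ∧ j ≤ 2 * N := by
    intro j hj
    rcases Finset.mem_union.mp hj with h | h
    · obtain ⟨l, _, rfl⟩ := Finset.mem_image.mp h
      exact hx l
    · obtain ⟨l, _, rfl⟩ := Finset.mem_image.mp h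
      exact hy l
  have hj0A : j0 ∈ A := by
    by_contra hcon
    apply hj0
    have h1 : Finset.univ.filter (fun l => x l = j0) = ∅ := by
      rw [Finset.filter_eq_empty_iff]
      intro l _ hl
      exact hcon (Finset.mem_union_left _ (hl ▸ Finset.mem_image_of_mem x (Finset.mem_univ l)))
    have h2 : Finset.univ.filter (fun l => y l = j0) = ∅ := by
      rw [Finset.filter_eq_empty_iff]
      intro l _ hl
      exact hcon (Finset.mem_union_right _ (hl ▸ Finset.mem_image_of_mem y (Finset.mem_univ l)))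
    rw [mu, h1, h2]
    simp
  have hj0J : j0 ∈ J := Finset.mem_filter.mpr ⟨hj0A, hj0⟩
  have hcard : J.card ≤ 2 * k := by
    calc J.card ≤ A.card := Finset.card_filter_le _ _
      _ ≤ (Finset.univ.image x).card + (Finset.univ.image y).card := Finset.card_union_le _ _
      _ ≤ (Finset.univ : Finset (Fin k)).card + (Finset.univ : Finset (Fin k)).card :=
          add_le_add Finset.card_image_le Finset.card_image_le
      _ = 2 * k := by rw [Finset.card_univ, Fintype.card_fin]; ring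
  have hexp : ∀ i, DD β x y i u = ∑ j ∈ J, ((mu x y j : ℝ) * ((j : ℝ) + u) ^ β) *
      (((j : ℝ) + u)⁻¹) ^ i := by
    intro i
    rw [DD, sum_fib x A (fun l => Finset.mem_union_left _ (Finset.mem_image_of_mem x
        (Finset.mem_univ l))) (fun j => ((j : ℝ) + u) ^ (β - i)),
      sum_fib y A (fun l => Finset.mem_union_right _ (Finset.mem_image_of_mem y
        (Finset.mem_univ l))) (fun j => ((j : ℝ) + u) ^ (β - i)), ← Finset.sum_sub_distrib]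
    have e1 : ∀ j ∈ A, ((Finset.univ.filter (fun l => x l = j)).card : ℝ) * ((j : ℝ) + u) ^ (β - i) -
        ((Finset.univ.filter (fun l => y l = j)).card : ℝ) * ((j : ℝ) + u) ^ (β - i) =
        ((mu x y j : ℝ) * ((j : ℝ) + u) ^ β) * (((j : ℝ) + u)⁻¹) ^ i := by
      intro j hj
      have h1 : (1 : ℝ) ≤ j := by exact_mod_cast hN.trans (hmemA j hj).1
      have h2 : (j : ℝ) + u ≠ 0 := by linarith [hu.1]
      rw [Real.rpow_sub_natCast h2, mu, inv_pow]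
      push_cast
      field_simp
    rw [Finset.sum_congr rfl e1, hJ]
    refine (Finset.sum_subset (Finset.filter_subset _ _) (fun j hj hj2 => ?_)).symm
    have : mu x y j = 0 := by
      by_contra hcon
      exact hj2 (Finset.mem_filter.mpr ⟨hj, hcon⟩)
    rw [this]
    simp
  have hjb : ∀ j ∈ J, N ≤ j ∧ j ≤ 2 * N := fun j hj => hmemA j (Finset.filter_subset _ _ hj)
  have hjr : ∀ j ∈ J, 1 ≤ (j : ℝ) + u ∧ (j : ℝ) + u ≤ 3 * N := by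
    intro j hj
    have h1 : (N : ℝ) ≤ j := by exact_mod_cast (hjb j hj).1
    have h2 : (j : ℝ) ≤ 2 * N := by exact_mod_cast (hjb j hj).2
    exact ⟨by linarith [hu.1], by linarith [hu.2]⟩
  obtain ⟨i, hi, hi2⟩ := vand (fun j => ((j : ℝ) + u)⁻¹) (δ := 1 / (9 * N ^ 2 : ℝ)) (by positivity)
    (j0 := j0) (J.erase j0) (Finset.notMem_erase j0 J)
    (fun j hj => by
      have h1 := (hjr j (Finset.mem_of_mem_erase hj)).1
      rw [abs_of_pos (by positivity)]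
      exact inv_le_one_of_one_le₀ h1)
    (fun j hj => by
      obtain ⟨h1, h2⟩ := hjr j (Finset.mem_of_mem_erase hj)
      obtain ⟨h3, h4⟩ := hjr j0 hj0J
      have h5 : j0 ≠ j := (Finset.ne_of_mem_erase hj).symm
      have h6 : (1 : ℝ) ≤ |(j : ℝ) - j0| := by
        have : (1 : ℤ) ≤ |(j : ℤ) - j0| := Int.one_le_abs (by omega)
        exact_mod_cast this
      have e : ((j0 : ℝ) + u)⁻¹ - ((j : ℝ) + u)⁻¹ = ((j : ℝ) - j0) / (((j0 : ℝ) + u) * ((j : ℝ) + u)) := by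
        have a1 : (j0 : ℝ) + u ≠ 0 := by linarith
        have a2 : (j : ℝ) + u ≠ 0 := by linarith
        field_simp
        ring
      rw [e, abs_div, abs_of_pos (by positivity : 0 < ((j0 : ℝ) + u) * ((j : ℝ) + u))]
      apply div_le_div₀ (abs_nonneg _) h6 (by positivity)
      calc ((j0 : ℝ) + u) * ((j : ℝ) + u) ≤ (3 * N) * (3 * N) := by gcongr
        _ = 9 * N ^ 2 := by ring)
    (fun j => (mu x y j : ℝ) * ((j : ℝ) + u) ^ β)
  rw [Finset.insert_erase hj0J, ← hexp] at hi2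
  have hce : (J.erase j0).card = J.card - 1 := Finset.card_erase_of_mem hj0J
  have hJpos : 0 < J.card := Finset.card_pos.mpr ⟨j0, hj0J⟩
  refine ⟨i, by omega, le_trans ?_ hi2⟩
  have h7 : (1 : ℝ) ≤ |(mu x y j0 : ℝ)| := by exact_mod_cast Int.one_le_abs hj0
  have h8 := pw_ge hb (hjb j0 hj0J).1 hN (hjb j0 hj0J).2 hu
  have h9 : (0 : ℝ) < ((3 : ℝ) ^ b)⁻¹ * (N : ℝ) ^ β := by positivity
  rw [abs_mul, abs_of_pos (h9.trans_le h8)]
  have e2 : (1 : ℝ) / (9 * N ^ 2) / 2 = 1 / (18 * N ^ 2) := by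
    rw [div_div]
    congr 1
    ring
  rw [e2]
  have h10 : (1 / (18 * N ^ 2 : ℝ)) ^ (2 * k) ≤ (1 / (18 * N ^ 2 : ℝ)) ^ (J.erase j0).card := by
    apply pow_le_pow_of_le_one (by positivity) _ (by omega)
    rw [div_le_one (by positivity)]
    nlinarith
  calc ((3 : ℝ) ^ b)⁻¹ * (N : ℝ) ^ β * (1 / (18 * N ^ 2 : ℝ)) ^ (2 * k)
      ≤ ((3 : ℝ) ^ b)⁻¹ * (N : ℝ) ^ β * (1 / (18 * N ^ 2 : ℝ)) ^ (J.erase j0).card := by gcongr
    _ ≤ (1 * ((j0 : ℝ) + u) ^ β) * (1 / (18 * N ^ 2 : ℝ)) ^ (J.erase j0).card := by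
        rw [one_mul]
        gcongr
    _ ≤ _ := by
        have : 0 ≤ ((j0 : ℝ) + u) ^ β := h9.le.trans h8
        gcongr

lemma kap (β : ℝ) (hβ : ∀ m : ℕ, β ≠ m) (R : ℕ) :
    ∃ κ0 : ℝ, 0 < κ0 ∧ κ0 ≤ 1 ∧ ∀ i < R, κ0 ≤ |β - i| := by
  induction R with
  | zero => exact ⟨1, one_pos, le_rfl, fun i hi => absurd hi (by omega)⟩
  | succ R ih =>
    obtain ⟨κ, h1, h2, h3⟩ := ih
    have h4 : 0 < |β - R| := abs_pos.mpr (sub_ne_zero.mpr (hβ R))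
    refine ⟨min κ |β - R|, lt_min h1 h4, (min_le_left _ _).trans h2, fun i hi => ?_⟩
    rcases Nat.lt_succ_iff_lt_or_eq.mp hi with h | rfl
    · exact (min_le_left _ _).trans (h3 i h)
    · exact min_le_right _ _

/-- the product of the first factors -/
noncomputable def fp (β : ℝ) (p : ℕ) : ℝ := ∏ i ∈ Finset.range p, (β - i)

/-- The function `φ 0` has the derivatives `φ 1`, `φ 2`, ..., which are close to those of a multiple of a
power function. -/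
structure Near (β T c0 : ℝ) (C P N : ℕ) (φ : ℕ → ℝ → ℝ) : Prop where
  der : ∀ i ≤ P, ∀ x ∈ Icc (N : ℝ) (2 * N + 1), HasDerivAt (φ i) (φ (i + 1) x) x
  near : ∀ p ≤ P, ∀ x ∈ Icc (N : ℝ) (2 * N + 1),
    |φ (p + 1) x - T * fp β p * x ^ (β - p)| ≤ c0 / (N : ℝ) ^ C * (T * x ^ (β - p))

/-- the normalized derivatives of the phase -/
noncomputable def PP (β T : ℝ) (φ : ℕ → ℝ → ℝ) {k : ℕ} (x y : Fin k → ℕ) (i : ℕ) (u : ℝ) : ℝ :=
  (∑ l, φ (i + 1) ((x l : ℝ) + u) - ∑ l, φ (i + 1) ((y l : ℝ) + u)) / (T * fp β i)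

lemma mem_dom {N n : ℕ} (hn : N ≤ n) (hn2 : n ≤ 2 * N) {u : ℝ} (hu : u ∈ Icc (0 : ℝ) 1) :
    (n : ℝ) + u ∈ Icc (N : ℝ) (2 * N + 1) := by
  have h1 : (N : ℝ) ≤ n := by exact_mod_cast hn
  have h2 : (n : ℝ) ≤ 2 * N := by exact_mod_cast hn2
  exact ⟨by linarith [hu.1], by linarith [hu.2]⟩

lemma fp_ne {β : ℝ} (hβ : ∀ m : ℕ, β ≠ m) (p : ℕ) : fp β p ≠ 0 :=
  Finset.prod_ne_zero_iff.mpr (fun i _ => sub_ne_zero.mpr (hβ i))

lemma fp_low {β κ0 : ℝ} (h0 : 0 < κ0) (h1 : κ0 ≤ 1) {R : ℕ} (h : ∀ i < R, κ0 ≤ |β - i|) {p : ℕ}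
    (hp : p ≤ R) : κ0 ^ R ≤ |fp β p| := by
  rw [fp, Finset.abs_prod]
  calc κ0 ^ R ≤ κ0 ^ p := pow_le_pow_of_le_one h0.le h1 hp
    _ = ∏ i ∈ Finset.range p, κ0 := by rw [Finset.prod_const, Finset.card_range]
    _ ≤ _ := Finset.prod_le_prod (fun _ _ => h0.le)
        (fun i hi => h i ((Finset.mem_range.mp hi).trans_le hp))

lemma PP_der {β T c0 : ℝ} {C P N : ℕ} {φ : ℕ → ℝ → ℝ} (hφ : Near β T c0 C P N φ)
    (hβ : ∀ m : ℕ, β ≠ m) (hT : T ≠ 0) {k : ℕ} (x y : Fin k → ℕ)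
    (hx : ∀ l, N ≤ x l ∧ x l ≤ 2 * N) (hy : ∀ l, N ≤ y l ∧ y l ≤ 2 * N) {i : ℕ} (hi : i + 1 ≤ P)
    {u : ℝ} (hu : u ∈ Icc (0 : ℝ) 1) :
    HasDerivAt (PP β T φ x y i) ((β - i) * PP β T φ x y (i + 1) u) u := by
  have h1 : ∀ n : ℕ, N ≤ n → n ≤ 2 * N → HasDerivAt (fun u : ℝ => φ (i + 1) ((n : ℝ) + u))
      (φ (i + 2) ((n : ℝ) + u)) u := fun n hn hn2 =>
    (hφ.der (i + 1) hi ((n : ℝ) + u) (mem_dom hn hn2 hu)).comp_const_add (n : ℝ) u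
  have h3 : HasDerivAt (fun u => ∑ l, φ (i + 1) ((x l : ℝ) + u))
      (∑ l, φ (i + 2) ((x l : ℝ) + u)) u :=
    HasDerivAt.fun_sum (fun l _ => h1 (x l) (hx l).1 (hx l).2)
  have h4 : HasDerivAt (fun u => ∑ l, φ (i + 1) ((y l : ℝ) + u))
      (∑ l, φ (i + 2) ((y l : ℝ) + u)) u :=
    HasDerivAt.fun_sum (fun l _ => h1 (y l) (hy l).1 (hy l).2)
  refine ((h3.sub h4).div_const (T * fp β i)).congr_deriv ?_
  have h5 := fp_ne hβ i
  have h6 : β - i ≠ 0 := sub_ne_zero.mpr (hβ i)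
  have h7 : fp β (i + 1) = fp β i * (β - i) := by rw [fp, Finset.prod_range_succ]; rfl
  rw [PP, h7]
  field_simp

lemma PP_close {β T c0 κ0 : ℝ} {C P N b : ℕ} {φ : ℕ → ℝ → ℝ} (hφ : Near β T c0 C P N φ)
    (hβ : ∀ m : ℕ, β ≠ m) (hT : 0 < T) (hc0 : 0 < c0) (hb : |β| ≤ b) (hN : 1 ≤ N)
    (h0 : 0 < κ0) (h1 : κ0 ≤ 1) {R : ℕ} (h : ∀ i < R, κ0 ≤ |β - i|) {k : ℕ} (x y : Fin k → ℕ)
    (hx : ∀ l, N ≤ x l ∧ x l ≤ 2 * N) (hy : ∀ l, N ≤ y l ∧ y l ≤ 2 * N) {i : ℕ} (hi : i ≤ P)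
    (hiR : i ≤ R) {u : ℝ} (hu : u ∈ Icc (0 : ℝ) 1) :
    |PP β T φ x y i u - DD β x y i u| ≤
      2 * k * (c0 / (N : ℝ) ^ C) * ((3 : ℝ) ^ b * (N : ℝ) ^ β) / κ0 ^ R := by
  have hN' : (1 : ℝ) ≤ N := by exact_mod_cast hN
  have hfp := fp_ne hβ i
  have hlow := fp_low h0 h1 h hiR
  have e : PP β T φ x y i u - DD β x y i u =
      (∑ l, (φ (i + 1) ((x l : ℝ) + u) - T * fp β i * ((x l : ℝ) + u) ^ (β - i)) -
        ∑ l, (φ (i + 1) ((y l : ℝ) + u) - T * fp β i * ((y l : ℝ) + u) ^ (β - i))) /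
        (T * fp β i) := by
    rw [PP, DD, Finset.sum_sub_distrib, Finset.sum_sub_distrib, ← Finset.mul_sum, ← Finset.mul_sum]
    field_simp
    ring
  have hone : ∀ z : Fin k → ℕ, (∀ l, N ≤ z l ∧ z l ≤ 2 * N) →
      |∑ l, (φ (i + 1) ((z l : ℝ) + u) - T * fp β i * ((z l : ℝ) + u) ^ (β - i))| ≤
      k * (c0 / (N : ℝ) ^ C * (T * ((3 : ℝ) ^ b * (N : ℝ) ^ β))) := by
    intro z hz
    calc _ ≤ ∑ l : Fin k, c0 / (N : ℝ) ^ C * (T * ((3 : ℝ) ^ b * (N : ℝ) ^ β)) := by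
          refine (Finset.abs_sum_le_sum_abs _ _).trans (Finset.sum_le_sum (fun l _ => ?_))
          refine (hφ.near i hi _ (mem_dom (hz l).1 (hz l).2 hu)).trans ?_
          have := pw_le hb (hz l).1 hN (hz l).2 i hu
          gcongr
      _ = _ := by rw [Finset.sum_const, Finset.card_univ, Fintype.card_fin, nsmul_eq_mul]
  rw [e, abs_div, abs_mul, abs_of_pos hT]
  have h2 := hone x hx
  have h3 := hone y hy
  have h4 : |∑ l, (φ (i + 1) ((x l : ℝ) + u) - T * fp β i * ((x l : ℝ) + u) ^ (β - i)) -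
        ∑ l, (φ (i + 1) ((y l : ℝ) + u) - T * fp β i * ((y l : ℝ) + u) ^ (β - i))| ≤
      2 * k * (c0 / (N : ℝ) ^ C * (T * ((3 : ℝ) ^ b * (N : ℝ) ^ β))) := by
    refine (abs_sub _ _).trans ?_
    linarith
  have hκ : 0 < κ0 ^ R := by positivity
  calc _ ≤ 2 * k * (c0 / (N : ℝ) ^ C * (T * ((3 : ℝ) ^ b * (N : ℝ) ^ β))) / (T * κ0 ^ R) := by
        apply div_le_div₀ (by positivity) h4 (by positivity)
        gcongr
    _ = _ := by field_simp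

/-- the off-diagonal integrals -/
lemma offdiag (k : ℕ) (hk : 1 ≤ k) : ∃ (A C P : ℕ), ∀ (β : ℝ), (∀ m : ℕ, β ≠ m) →
    ∃ (c0 K : ℝ), 0 < c0 ∧ 0 < K ∧ ∀ (N : ℕ), 1 ≤ N → ∀ (T : ℝ), 0 < T →
      (N : ℝ) ^ A ≤ T * (N : ℝ) ^ β →
      ∀ φ : ℕ → ℝ → ℝ, Near β T c0 C P N φ → ∀ (q : ℕ → ℝ) (x y : Fin k → ℕ),
      (∀ l, N ≤ x l ∧ x l ≤ 2 * N) → (∀ l, N ≤ y l ∧ y l ≤ 2 * N) → (∃ j, mu x y j ≠ 0) →
      |∫ u in (0 : ℝ)..1, Real.cos (2 * Real.pi * ∑ l, (φ 0 ((x l : ℝ) + u) + q (x l)) -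
        2 * Real.pi * ∑ l, (φ 0 ((y l : ℝ) + u) + q (y l)))| ≤ K / (N : ℝ) ^ k := by
  refine ⟨8 * k * (13 * k), 4 * k, 2 * k + 1, fun β hβ => ?_⟩
  obtain ⟨κ0, h1, h2, h3'⟩ := kap β hβ (2 * k + 1)
  have h3 : ∀ i < 2 * k, κ0 ≤ |β - i| := fun i hi => h3' i (by omega)
  obtain ⟨b, hb⟩ := exists_nat_ge |β|
  have hk' : (1 : ℝ) ≤ k := by exact_mod_cast hk
  refine ⟨κ0 ^ (2 * k + 1) / (4 * k * 3 ^ (2 * b) * 18 ^ (2 * k)),
    30 * 2 ^ (2 * k) * (b + 2 * k) ^ 2 * (4 * k * 3 ^ b) ^ 2 * (3 ^ b) ^ 3 *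
    18 ^ (6 * k) * 8 / κ0 ^ (2 * (2 * k)), by positivity, by positivity, ?_⟩
  intro N hN T hT0 hTN φ hφ q x y hx hy hne
  have hN' : (1 : ℝ) ≤ N := by exact_mod_cast hN
  have hN0 : (0 : ℝ) < N := by linarith
  have hNβ : 0 < (N : ℝ) ^ β := Real.rpow_pos_of_pos hN0 β
  set S : ℝ := T * (N : ℝ) ^ β with hS
  have hS1 : 1 ≤ S := (one_le_pow₀ hN').trans hTN
  have hS0 : 0 < S := by linarith
  set lam : ℝ := ((3 : ℝ) ^ b)⁻¹ * (1 / (18 * N ^ 2 : ℝ)) ^ (2 * k) with hlam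
  have hlam0 : 0 < lam := by rw [hlam]; positivity
  have h3N : (1 : ℝ) ≤ (3 : ℝ) ^ b := one_le_pow₀ (by norm_num)
  have hlam1 : lam ≤ 1 := by
    rw [hlam]
    have e1 : ((3 : ℝ) ^ b)⁻¹ ≤ 1 := inv_le_one_of_one_le₀ h3N
    have e2 : (1 / (18 * N ^ 2 : ℝ)) ^ (2 * k) ≤ 1 := by
      apply pow_le_one₀ (by positivity)
      rw [div_le_one (by positivity)]
      nlinarith
    calc ((3 : ℝ) ^ b)⁻¹ * (1 / (18 * N ^ 2 : ℝ)) ^ (2 * k) ≤ 1 * 1 := by gcongr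
      _ = 1 := one_mul 1
  have hNne : (N : ℝ) ≠ 0 := by linarith
  have hlam' : lam = (3 ^ b * 18 ^ (2 * k) * (N : ℝ) ^ (4 * k))⁻¹ := by
    rw [hlam, one_div, inv_pow, ← mul_inv]
    congr 1
    rw [mul_pow, ← pow_mul]
    ring
  have hclose : ∀ i ≤ 2 * k, ∀ u ∈ Icc (0 : ℝ) 1,
      |PP β T φ x y i u / (N : ℝ) ^ β - DD β x y i u / (N : ℝ) ^ β| ≤ lam / 2 := by
    intro i hi u hu
    rw [← sub_div, abs_div, abs_of_pos hNβ, div_le_iff₀ hNβ]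
    refine (PP_close hφ hβ hT0 (by positivity) hb hN h1 h2 h3' x y hx hy (by omega) (by omega)
      hu).trans (le_of_eq ?_)
    rw [hlam']
    have e6 : (3 : ℝ) ^ (2 * b) = 3 ^ b * 3 ^ b := by
      rw [← pow_add]
      congr 1
      ring
    rw [e6]
    field_simp
    norm_num
  have hder : ∀ n : ℕ, N ≤ n → n ≤ 2 * N → ∀ u ∈ Icc (0 : ℝ) 1,
      HasDerivAt (fun u => φ 0 ((n : ℝ) + u) + q n) (φ 1 ((n : ℝ) + u)) u := by
    intro n hn hn2 u hu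
    exact ((hφ.der 0 (by omega) ((n : ℝ) + u) (mem_dom hn hn2 hu)).comp_const_add
      (n : ℝ) u).add_const (q n)
  have hDDb : ∀ i : ℕ, ∀ u ∈ Icc (0 : ℝ) 1, |DD β x y i u / (N : ℝ) ^ β| ≤ 2 * k * 3 ^ b := by
    intro i u hu
    rw [abs_div, abs_of_pos hNβ, div_le_iff₀ hNβ]
    refine (DD_bd hb hN x y hx hy i hu).trans (le_of_eq ?_)
    ring
  have hch : Chain (fun i u => PP β T φ x y i u / (N : ℝ) ^ β) (fun i => β - i)
      (fun u => 2 * Real.pi * ∑ l, (φ 0 ((x l : ℝ) + u) + q (x l)) -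
        2 * Real.pi * ∑ l, (φ 0 ((y l : ℝ) + u) + q (y l)))
      (2 * k) κ0 (b + 2 * k) (4 * k * 3 ^ b) S := by
    refine ⟨by omega, h1, h2, ?_, ?_, hS1, h3, ?_, ?_, ?_, ?_⟩
    · have : (0 : ℝ) ≤ b := Nat.cast_nonneg b
      linarith
    · nlinarith
    · intro i hi
      have hi' : (i : ℝ) ≤ 2 * k := by exact_mod_cast hi.le
      calc |β - i| ≤ |β| + |(i : ℝ)| := abs_sub _ _
        _ ≤ b + 2 * k := by
            have hia : |(i : ℝ)| = i := abs_of_nonneg (Nat.cast_nonneg i)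
            rw [hia]
            linarith
    · intro i hi u hu
      have e1 := hDDb i u hu
      have e2 := hclose i hi u hu
      have e3 : |PP β T φ x y i u / (N : ℝ) ^ β| ≤
          |PP β T φ x y i u / (N : ℝ) ^ β - DD β x y i u / (N : ℝ) ^ β| +
          |DD β x y i u / (N : ℝ) ^ β| := by
        have := abs_add_le (PP β T φ x y i u / (N : ℝ) ^ β - DD β x y i u / (N : ℝ) ^ β)
          (DD β x y i u / (N : ℝ) ^ β)
        rwa [sub_add_cancel] at this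
      show |PP β T φ x y i u / (N : ℝ) ^ β| ≤ _
      nlinarith
    · intro i hi u hu
      refine ((PP_der hφ hβ hT0.ne' x y hx hy (by omega) hu).div_const _).congr_deriv ?_
      ring
    · intro u hu
      have e1 : HasDerivAt (fun u => ∑ l, (φ 0 ((x l : ℝ) + u) + q (x l)))
          (∑ l, φ 1 ((x l : ℝ) + u)) u :=
        HasDerivAt.fun_sum (fun l _ => hder (x l) (hx l).1 (hx l).2 u hu)
      have e2 : HasDerivAt (fun u => ∑ l, (φ 0 ((y l : ℝ) + u) + q (y l)))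
          (∑ l, φ 1 ((y l : ℝ) + u)) u :=
        HasDerivAt.fun_sum (fun l _ => hder (y l) (hy l).1 (hy l).2 u hu)
      refine ((e1.const_mul (2 * Real.pi)).sub (e2.const_mul (2 * Real.pi))).congr_deriv ?_
      have e3 : fp β 0 = 1 := by rw [fp, Finset.prod_range_zero]
      rw [PP, e3, hS]
      simp only [zero_add]
      field_simp
  have hlow : ∀ u ∈ Icc (0 : ℝ) 1, ∃ i < 2 * k, lam / 2 ≤ |PP β T φ x y i u / (N : ℝ) ^ β| := by
    intro u hu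
    obtain ⟨i, hi, hi2⟩ := DD_low hb hN x y hx hy hne hu
    refine ⟨i, hi, ?_⟩
    have e2 := hclose i hi.le u hu
    have e4 : lam ≤ |DD β x y i u / (N : ℝ) ^ β| := by
      rw [abs_div, abs_of_pos hNβ, le_div_iff₀ hNβ, hlam]
      refine le_trans (le_of_eq ?_) hi2
      ring
    have e3 : |DD β x y i u / (N : ℝ) ^ β| ≤
        |PP β T φ x y i u / (N : ℝ) ^ β - DD β x y i u / (N : ℝ) ^ β| +
        |PP β T φ x y i u / (N : ℝ) ^ β| := by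
      have := abs_sub (PP β T φ x y i u / (N : ℝ) ^ β)
        (PP β T φ x y i u / (N : ℝ) ^ β - DD β x y i u / (N : ℝ) ^ β)
      rw [sub_sub_cancel] at this
      linarith
    linarith
  have key := total hch (lam := lam / 2) (by positivity) (by linarith) hlow
  refine key.trans ?_
  have hTb : S ^ (-(1 / (4 * ((2 * k : ℕ) : ℝ)))) ≤ ((N : ℝ) ^ (13 * k))⁻¹ := by
    have e1 : ((N : ℝ) ^ (8 * k * (13 * k))) ^ (-(1 / (4 * ((2 * k : ℕ) : ℝ)))) =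
        ((N : ℝ) ^ (13 * k))⁻¹ := by
      rw [← Real.rpow_natCast (N : ℝ) (8 * k * (13 * k)), ← Real.rpow_mul (by linarith),
        ← Real.rpow_natCast (N : ℝ) (13 * k), ← Real.rpow_neg (by linarith)]
      congr 1
      push_cast
      field_simp
      ring
    rw [← e1]
    apply Real.rpow_le_rpow_of_nonpos (by positivity) hTN
    have : (0 : ℝ) ≤ 1 / (4 * ((2 * k : ℕ) : ℝ)) := by positivity
    linarith
  have hcoef : 0 ≤ 30 * 2 ^ (2 * k) * (b + 2 * k : ℝ) ^ 2 * (4 * k * (3 : ℝ) ^ b) ^ 2 /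
      (κ0 ^ (2 * (2 * k)) * (lam / 2) ^ 3) := by positivity
  refine (mul_le_mul_of_nonneg_left hTb hcoef).trans (le_of_eq ?_)
  have hlam3 : (lam / 2) ^ 3 = ((3 ^ b) ^ 3 * 18 ^ (6 * k) * (N : ℝ) ^ (12 * k) * 8)⁻¹ := by
    rw [hlam', div_pow, inv_pow, mul_pow, mul_pow, ← pow_mul (18 : ℝ), ← pow_mul (N : ℝ),
      div_eq_mul_inv, ← mul_inv]
    congr 1
    have a2 : 2 * k * 3 = 6 * k := by ring
    have a3 : 4 * k * 3 = 12 * k := by ring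
    rw [a2, a3]
    norm_num
  rw [hlam3]
  have e5 : (N : ℝ) ^ (13 * k) = (N : ℝ) ^ (12 * k) * (N : ℝ) ^ k := by
    rw [← pow_add]
    congr 1
    ring
  rw [e5]
  field_simp

end Pool.Agent.Y933.KI
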