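import Pool.Agent.W66.VA

/-!
# The integral over the translations of the product of two terms
-/

set_option autoImplicit false

namespace Pool.Agent.Y933.KI

open Set MeasureTheory intervalIntegral

/-- The phase `f` on `[A, B]` has three derivatives, the second one is at least `lo` in absolute value, the
second and the third do not change sign. -/
structure Reg (f f1 f2 f3 : ℝ → ℝ) (A B lo : ℝ) : Prop where
  cont : ContinuousOn f (Icc A B)
  d1 : ∀ x ∈ Ioo A B, HasDerivAt f (f1 x) x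
  d2 : ∀ x ∈ Ioo A B, HasDerivAt f1 (f2 x) x
  d3 : ∀ x ∈ Ioo A B, HasDerivAt f2 (f3 x) x
  pos : 0 < lo
  s2 : (∀ x ∈ Ioo A B, lo ≤ f2 x) ∨ (∀ x ∈ Ioo A B, f2 x ≤ -lo)
  s3 : (∀ x ∈ Ioo A B, 0 ≤ f3 x) ∨ (∀ x ∈ Ioo A B, f3 x ≤ 0)

variable {f f1 f2 f3 : ℝ → ℝ} {A B lo : ℝ}

lemma mvt1 (h : Reg f f1 f2 f3 A B lo) {x y : ℝ} (hx : A < x) (hxy : x < y) (hy : y < B) :
    ∃ z ∈ Ioo x y, f1 y - f1 x = f2 z * (y - x) := by
  obtain ⟨z, hz, hz2⟩ := exists_hasDerivAt_eq_slope f1 f2 hxy
    (fun t ht => (h.d2 t ⟨hx.trans_le ht.1, ht.2.trans_lt hy⟩).continuousAt.continuousWithinAt)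
    (fun t ht => h.d2 t ⟨hx.trans ht.1, ht.2.trans hy⟩)
  refine ⟨z, hz, ?_⟩
  rw [hz2]
  have : y - x ≠ 0 := by linarith
  field_simp

lemma mvt2 (h : Reg f f1 f2 f3 A B lo) {x y : ℝ} (hx : A < x) (hxy : x < y) (hy : y < B) :
    ∃ z ∈ Ioo x y, f2 y - f2 x = f3 z * (y - x) := by
  obtain ⟨z, hz, hz2⟩ := exists_hasDerivAt_eq_slope f2 f3 hxy
    (fun t ht => (h.d3 t ⟨hx.trans_le ht.1, ht.2.trans_lt hy⟩).continuousAt.continuousWithinAt)
    (fun t ht => h.d3 t ⟨hx.trans ht.1, ht.2.trans hy⟩)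
  refine ⟨z, hz, ?_⟩
  rw [hz2]
  have : y - x ≠ 0 := by linarith
  field_simp

/-- closed subinterval -/
lemma pair_in (h : Reg f f1 f2 f3 A B lo) (c : ℝ) {n m a b : ℝ} (hnm : m < n) (hab : a ≤ b)
    (ha : A < m + a) (hb : n + b < B) :
    |∫ u in a..b, Real.cos (2 * Real.pi * (f (n + u) - f (m + u)) + c)| ≤ 1 / ((n - m) * lo) := by
  have hpi := Real.pi_gt_three
  have hd : 0 < n - m := by linarith
  have hlo := h.pos
  have hin : ∀ u ∈ Icc a b, A < m + u ∧ m + u < n + u ∧ n + u < B := fun u hu =>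
    ⟨by linarith [hu.1], by linarith, by linarith [hu.2]⟩
  -- sign
  obtain ⟨s, hs, hs3⟩ : ∃ s : ℝ, (s = 1 ∨ s = -1) ∧ ∀ x ∈ Ioo A B, 0 ≤ s * f3 x := by
    rcases h.s3 with h3 | h3
    · exact ⟨1, Or.inl rfl, fun x hx => by rw [one_mul]; exact h3 x hx⟩
    · exact ⟨-1, Or.inr rfl, fun x hx => by have := h3 x hx; linarith⟩
  have hcos : ∀ u, Real.cos (2 * Real.pi * (f (n + u) - f (m + u)) + c) =
      Real.cos (2 * Real.pi * s * (f (n + u) - f (m + u)) + s * c) := by
    intro u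
    rcases hs with rfl | rfl
    · rw [mul_one, one_mul]
    · rw [← Real.cos_neg]
      congr 1
      ring
  simp only [hcos]
  have hD : ∀ (g g' : ℝ → ℝ), (∀ x ∈ Ioo A B, HasDerivAt g (g' x) x) → ∀ u ∈ Icc a b,
      HasDerivAt (fun u => 2 * Real.pi * s * (g (n + u) - g (m + u)))
        (2 * Real.pi * s * (g' (n + u) - g' (m + u))) u := by
    intro g g' hg u hu
    obtain ⟨h1, h2, h3⟩ := hin u hu
    have e1 : HasDerivAt (fun u => g (n + u)) (g' (n + u)) u :=
      (hg (n + u) ⟨by linarith, h3⟩).comp_const_add n u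
    have e2 : HasDerivAt (fun u => g (m + u)) (g' (m + u)) u :=
      (hg (m + u) ⟨h1, by linarith⟩).comp_const_add m u
    exact (e1.sub e2).const_mul _
  have key := Pool.Agent.W66V.vdc1 (θ := fun u => 2 * Real.pi * s * (f (n + u) - f (m + u)) + s * c)
    (θ' := fun u => 2 * Real.pi * s * (f1 (n + u) - f1 (m + u)))
    (θ'' := fun u => 2 * Real.pi * s * (f2 (n + u) - f2 (m + u)))
    (a := a) (b := b) (m := 2 * Real.pi * ((n - m) * lo)) hab
    (fun u hu => (hD f f1 h.d1 u hu).add_const (s * c)) (hD f1 f2 h.d2)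
    (fun u hu => (hD f2 f3 h.d3 u hu).continuousAt.continuousWithinAt) ?_ (by positivity) ?_
  · refine key.trans ?_
    rw [div_le_div_iff₀ (by positivity) (by positivity)]
    have : 0 < (n - m) * lo := by positivity
    nlinarith
  · intro u hu
    obtain ⟨h1, h2, h3⟩ := hin u hu
    obtain ⟨z, hz, hz2⟩ := mvt2 h h1 h2 h3
    rw [hz2]
    have h4 := hs3 z ⟨h1.trans hz.1, hz.2.trans h3⟩
    have h5 : 0 < n + u - (m + u) := by linarith
    have e1 : 2 * Real.pi * s * (f3 z * (n + u - (m + u))) =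
        2 * Real.pi * (s * f3 z) * (n + u - (m + u)) := by ring
    rw [e1]
    positivity
  · -- lower bound of the derivative, constant sign
    have hz : ∀ u ∈ Icc a b, ∃ z ∈ Ioo A B, f1 (n + u) - f1 (m + u) = f2 z * (n - m) := by
      intro u hu
      obtain ⟨h1, h2, h3⟩ := hin u hu
      obtain ⟨z, hz, hz2⟩ := mvt1 h h1 h2 h3
      refine ⟨z, ⟨h1.trans hz.1, hz.2.trans h3⟩, ?_⟩
      rw [hz2]
      ring
    have hP : ∀ u ∈ Icc a b, (∀ x ∈ Ioo A B, lo ≤ s * f2 x) →
        2 * Real.pi * ((n - m) * lo) ≤ 2 * Real.pi * s * (f1 (n + u) - f1 (m + u)) := by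
      intro u hu hx
      obtain ⟨z, hz1, hz2⟩ := hz u hu
      rw [hz2]
      have h6 := hx z hz1
      have e1 : 2 * Real.pi * s * (f2 z * (n - m)) = 2 * Real.pi * ((n - m) * (s * f2 z)) := by ring
      rw [e1]
      gcongr
    have hQ : ∀ u ∈ Icc a b, (∀ x ∈ Ioo A B, s * f2 x ≤ -lo) →
        2 * Real.pi * s * (f1 (n + u) - f1 (m + u)) ≤ -(2 * Real.pi * ((n - m) * lo)) := by
      intro u hu hx
      obtain ⟨z, hz1, hz2⟩ := hz u hu
      rw [hz2]
      have h6 := hx z hz1
      have e1 : 2 * Real.pi * s * (f2 z * (n - m)) = 2 * Real.pi * ((n - m) * (s * f2 z)) := by ring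
      have e2 : -(2 * Real.pi * ((n - m) * lo)) = 2 * Real.pi * ((n - m) * (-lo)) := by ring
      rw [e1, e2]
      gcongr
    rcases hs with rfl | rfl
    · rcases h.s2 with h2 | h2
      · exact Or.inl fun u hu => hP u hu fun x hx => by rw [one_mul]; exact h2 x hx
      · exact Or.inr fun u hu => hQ u hu fun x hx => by rw [one_mul]; exact h2 x hx
    · rcases h.s2 with h2 | h2
      · exact Or.inr fun u hu => hQ u hu fun x hx => by have := h2 x hx; linarith
      · exact Or.inl fun u hu => hP u hu fun x hx => by have := h2 x hx; linarith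

/-- The integral of the cosine of the difference of the phases. -/
lemma pair_bd (h : Reg f f1 f2 f3 A B lo) (c : ℝ) {n m a b : ℝ} (hnm : m < n) (hab : a ≤ b)
    (ha : A ≤ m + a) (hb : n + b ≤ B) :
    |∫ u in a..b, Real.cos (2 * Real.pi * (f (n + u) - f (m + u)) + c)| ≤ 1 / ((n - m) * lo) := by
  have hlo := h.pos
  have hd : 0 < n - m := by linarith
  have hcont : ContinuousOn (fun u => Real.cos (2 * Real.pi * (f (n + u) - f (m + u)) + c)) (Icc a b) := by
    apply Real.continuous_cos.comp_continuousOn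
    refine ContinuousOn.add ?_ continuousOn_const
    apply ContinuousOn.mul continuousOn_const
    apply ContinuousOn.sub
    · exact h.cont.comp (by fun_prop) fun u hu => ⟨by linarith [hu.1], by linarith [hu.2]⟩
    · exact h.cont.comp (by fun_prop) fun u hu => ⟨by linarith [hu.1], by linarith [hu.2]⟩
  rcases hab.eq_or_lt with rfl | hab'
  · rw [integral_same, abs_zero]
    positivity
  apply le_of_forall_pos_le_add
  intro η hη
  set δ := min (η / 2) ((b - a) / 2) with hδ
  have hδ0 : 0 < δ := lt_min (by linarith) (by linarith)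
  have hδ1 : δ ≤ η / 2 := min_le_left _ _
  have hδ2 : δ ≤ (b - a) / 2 := min_le_right _ _
  have hii : ∀ c' d : ℝ, a ≤ c' → c' ≤ d → d ≤ b → IntervalIntegrable
      (fun u => Real.cos (2 * Real.pi * (f (n + u) - f (m + u)) + c)) volume c' d := by
    intro c' d hc hcd hd
    apply ContinuousOn.intervalIntegrable
    rw [uIcc_of_le hcd]
    exact hcont.mono (Icc_subset_Icc hc hd)
  have hsmall : ∀ c' d : ℝ, c' ≤ d →
      |∫ u in c'..d, Real.cos (2 * Real.pi * (f (n + u) - f (m + u)) + c)| ≤ d - c' := by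
    intro c' d hcd
    have h3 : ∀ x ∈ Set.uIoc c' d, ‖Real.cos (2 * Real.pi * (f (n + x) - f (m + x)) + c)‖ ≤ 1 :=
      fun x _ => Real.abs_cos_le_one _
    have h4 := norm_integral_le_of_norm_le_const h3
    rw [Real.norm_eq_abs, abs_of_nonneg (by linarith : 0 ≤ d - c')] at h4
    linarith
  have hsplit : ∫ u in a..b, Real.cos (2 * Real.pi * (f (n + u) - f (m + u)) + c) =
      (∫ u in a..(a + δ), Real.cos (2 * Real.pi * (f (n + u) - f (m + u)) + c)) +
      (∫ u in (a + δ)..(b - δ), Real.cos (2 * Real.pi * (f (n + u) - f (m + u)) + c)) +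
      ∫ u in (b - δ)..b, Real.cos (2 * Real.pi * (f (n + u) - f (m + u)) + c) := by
    rw [integral_add_adjacent_intervals (hii _ _ le_rfl (by linarith) (by linarith))
      (hii _ _ (by linarith) (by linarith) (by linarith)),
      integral_add_adjacent_intervals (hii _ _ le_rfl (by linarith) (by linarith))
      (hii _ _ (by linarith) (by linarith) le_rfl)]
  rw [hsplit]
  have h1 := hsmall a (a + δ) (by linarith)
  have h2 := hsmall (b - δ) b (by linarith)
  have h3 := pair_in h c hnm (a := a + δ) (b := b - δ) (by linarith) (by linarith) (by linarith)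
  calc _ ≤ |∫ u in a..(a + δ), Real.cos (2 * Real.pi * (f (n + u) - f (m + u)) + c)| +
      |∫ u in (a + δ)..(b - δ), Real.cos (2 * Real.pi * (f (n + u) - f (m + u)) + c)| +
      |∫ u in (b - δ)..b, Real.cos (2 * Real.pi * (f (n + u) - f (m + u)) + c)| := abs_add_three _ _ _
    _ ≤ _ := by linarith

end Pool.Agent.Y933.KI
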