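import Pool.Agent.Y933.KI.Mom

/-!
# Almost all translates of the functions close to a power function
-/

set_option autoImplicit false

namespace Pool.Agent.Y933.KI

open Set MeasureTheory

/-- the exponential sum -/
noncomputable def ES (f : ℝ → ℝ) (q : ℕ → ℝ) (I : Finset ℕ) (u : ℝ) : ℂ :=
  ∑ n ∈ I, Complex.exp (2 * (Real.pi : ℂ) * Complex.I * ((f ((n : ℝ) + u) + q n : ℝ) : ℂ))

/-- the phases of the power -/
noncomputable def th (f : ℝ → ℝ) (q : ℕ → ℝ) {k : ℕ} (x : Fin k → ℕ) (u : ℝ) : ℝ :=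
  2 * Real.pi * ∑ l, (f ((x l : ℝ) + u) + q (x l))

lemma ES_pow (f : ℝ → ℝ) (q : ℕ → ℝ) (I : Finset ℕ) (k : ℕ) (u : ℝ) :
    ‖ES f q I u‖ ^ (2 * k) = ∑ x ∈ Fintype.piFinset (fun _ : Fin k => I),
      ∑ y ∈ Fintype.piFinset (fun _ : Fin k => I), Real.cos (th f q x u - th f q y u) := by
  have h1 : (ES f q I u) ^ k = ∑ x ∈ Fintype.piFinset (fun _ : Fin k => I),
      Complex.exp (((th f q x u : ℝ) : ℂ) * Complex.I) := by
    rw [ES, Finset.sum_pow']
    refine Finset.sum_congr rfl (fun x _ => ?_)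
    rw [← Complex.exp_sum, th]
    congr 1
    push_cast
    rw [Finset.mul_sum, Finset.sum_mul]
    refine Finset.sum_congr rfl (fun l _ => ?_)
    ring
  rw [mul_comm 2 k, pow_mul, ← norm_pow, Complex.sq_norm, Complex.normSq_apply, h1,
    Complex.re_sum, Complex.im_sum]
  simp only [Complex.exp_ofReal_mul_I_re, Complex.exp_ofReal_mul_I_im]
  rw [Finset.sum_mul_sum, Finset.sum_mul_sum, ← Finset.sum_add_distrib]
  refine Finset.sum_congr rfl (fun x _ => ?_)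
  rw [← Finset.sum_add_distrib]
  refine Finset.sum_congr rfl (fun y _ => ?_)
  rw [Real.cos_sub]

lemma f_cont {β T c0 : ℝ} {C P N : ℕ} {φ : ℕ → ℝ → ℝ} (hφ : Near β T c0 C P N φ) {n : ℕ}
    (hn : N ≤ n) (hn2 : n ≤ 2 * N) : ContinuousOn (fun u => φ 0 ((n : ℝ) + u)) (Icc 0 1) :=
  fun u hu => ((hφ.der 0 (Nat.zero_le _) ((n : ℝ) + u) (mem_dom hn hn2 hu)).comp_const_add
    (n : ℝ) u).continuousAt.continuousWithinAt

lemma triv_cos' {θ : ℝ → ℝ} : ∫ x in (0 : ℝ)..1, Real.cos (θ x) ≤ 1 := by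
  have h3 : ∀ x ∈ Set.uIoc (0 : ℝ) 1, ‖Real.cos (θ x)‖ ≤ 1 := fun x _ => Real.abs_cos_le_one _
  have h4 := intervalIntegral.norm_integral_le_of_norm_le_const h3
  rw [Real.norm_eq_abs] at h4
  have := le_abs_self (∫ x in (0 : ℝ)..1, Real.cos (θ x))
  norm_num at h4
  linarith

/-- the moment -/
lemma moment (k : ℕ) (hk : 1 ≤ k) : ∃ (A C P : ℕ), ∀ (β : ℝ), (∀ m : ℕ, β ≠ m) →
    ∃ (c0 K : ℝ), 0 < c0 ∧ 0 < K ∧ ∀ (N : ℕ), 1 ≤ N → ∀ (T : ℝ), 0 < T →
      (N : ℝ) ^ A ≤ T * (N : ℝ) ^ β →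
      ∀ φ : ℕ → ℝ → ℝ, Near β T c0 C P N φ →
      ∀ (q : ℕ → ℝ) (N1 N2 : ℕ), N ≤ N1 → N2 ≤ 2 * N →
      ∫ u in (0 : ℝ)..1, ‖ES (φ 0) q (Finset.Icc N1 N2) u‖ ^ (2 * k) ≤
        K * ((Finset.Icc N1 N2).card : ℝ) ^ k := by
  obtain ⟨A, C, P, hoff0⟩ := offdiag k hk
  refine ⟨A, C, P, fun β hβ => ?_⟩
  obtain ⟨c0, K, hc0, hK, hoff⟩ := hoff0 β hβ
  refine ⟨c0, k ^ k + 2 ^ k * K, hc0, by positivity, ?_⟩
  intro N hN T hT0 hT φ hφ q N1 N2 hN1 hN2
  have hN' : (1 : ℝ) ≤ N := by exact_mod_cast hN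
  set I := Finset.Icc N1 N2 with hI
  set P' := Fintype.piFinset (fun _ : Fin k => I) with hP
  have hmem : ∀ x ∈ P', ∀ l, N ≤ x l ∧ x l ≤ 2 * N := by
    intro x hx l
    have h1 := Fintype.mem_piFinset.mp hx l
    obtain ⟨h2, h3⟩ := Finset.mem_Icc.mp h1
    exact ⟨hN1.trans h2, h3.trans hN2⟩
  have hcardI : (I.card : ℝ) ≤ 2 * N := by
    have h1 : I.card ≤ 2 * N := by
      rw [hI, Nat.card_Icc]
      omega
    exact_mod_cast h1
  have hcardP : (P'.card : ℝ) = (I.card : ℝ) ^ k := by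
    rw [hP, Fintype.card_piFinset_const]
    push_cast
    rfl
  have hcardP2 : (P'.card : ℝ) ≤ (2 * N) ^ k := by
    rw [hcardP]
    exact pow_le_pow_left₀ (Nat.cast_nonneg _) hcardI k
  have hcth : ∀ x ∈ P', ContinuousOn (th (φ 0) q x) (Icc 0 1) := by
    intro x hx
    unfold th
    refine ContinuousOn.mul continuousOn_const ?_
    exact continuousOn_finsetSum _ (fun l _ =>
      (f_cont hφ (hmem x hx l).1 (hmem x hx l).2).add continuousOn_const)
  have hcc : ∀ x ∈ P', ∀ y ∈ P',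
      ContinuousOn (fun u => Real.cos (th (φ 0) q x u - th (φ 0) q y u)) (Icc 0 1) :=
    fun x hx y hy => Real.continuous_cos.comp_continuousOn ((hcth x hx).sub (hcth y hy))
  have hii : ∀ x ∈ P', ∀ y ∈ P',
      IntervalIntegrable (fun u => Real.cos (th (φ 0) q x u - th (φ 0) q y u)) volume 0 1 := by
    intro x hx y hy
    apply ContinuousOn.intervalIntegrable
    rw [uIcc_of_le zero_le_one]
    exact hcc x hx y hy
  simp only [ES_pow]
  rw [intervalIntegral.integral_finsetSum]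
  swap
  · intro x hx
    have := IntervalIntegrable.sum P' (f := fun y u => Real.cos (th (φ 0) q x u - th (φ 0) q y u))
      (μ := volume) (a := 0) (b := 1) (fun y hy => hii x hx y hy)
    refine this.congr (fun u _ => ?_)
    rw [Finset.sum_apply]
  have hone : ∀ x ∈ P', ∫ u in (0 : ℝ)..1, ∑ y ∈ P', Real.cos (th (φ 0) q x u - th (φ 0) q y u) ≤
      k ^ k + (2 * N) ^ k * (K / (N : ℝ) ^ k) := by
    intro x hx
    rw [intervalIntegral.integral_finsetSum (fun y hy => hii x hx y hy)]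
    classical
    set Dg := P'.filter (fun y => ∀ j, mu x y j = 0) with hDg
    set Of := P'.filter (fun y => ¬ ∀ j, mu x y j = 0) with hOf
    rw [← Finset.sum_filter_add_sum_filter_not P' (fun y => ∀ j, mu x y j = 0)]
    have hDgc : Dg.card ≤ k ^ k := by
      have h1 : Dg ⊆ Fintype.piFinset (fun _ : Fin k => Finset.univ.image x) := by
        intro y hy
        rw [Fintype.mem_piFinset]
        intro l
        have h2 := (Finset.mem_filter.mp hy).2 (y l)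
        rw [mu, sub_eq_zero] at h2
        have h3 : 0 < (Finset.univ.filter (fun m => y m = y l)).card :=
          Finset.card_pos.mpr ⟨l, Finset.mem_filter.mpr ⟨Finset.mem_univ l, rfl⟩⟩
        have h4 : 0 < (Finset.univ.filter (fun m => x m = y l)).card := by
          have : ((Finset.univ.filter (fun m => x m = y l)).card : ℤ) =
              (Finset.univ.filter (fun m => y m = y l)).card := h2
          omega
        obtain ⟨m, hm⟩ := Finset.card_pos.mp h4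
        exact Finset.mem_image.mpr ⟨m, Finset.mem_univ m, (Finset.mem_filter.mp hm).2⟩
      refine (Finset.card_le_card h1).trans ?_
      rw [Fintype.card_piFinset_const]
      apply Nat.pow_le_pow_left
      exact Finset.card_image_le.trans (by rw [Finset.card_univ, Fintype.card_fin])
    have hA : ∑ y ∈ Dg, ∫ u in (0 : ℝ)..1, Real.cos (th (φ 0) q x u - th (φ 0) q y u) ≤
        (k : ℝ) ^ k := by
      calc ∑ y ∈ Dg, ∫ u in (0 : ℝ)..1, Real.cos (th (φ 0) q x u - th (φ 0) q y u)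
          ≤ ∑ y ∈ Dg, (1 : ℝ) := Finset.sum_le_sum (fun y _ => triv_cos')
        _ = Dg.card := by simp
        _ ≤ (k : ℝ) ^ k := by exact_mod_cast hDgc
    have hB : ∑ y ∈ Of, ∫ u in (0 : ℝ)..1, Real.cos (th (φ 0) q x u - th (φ 0) q y u) ≤
        (2 * N : ℝ) ^ k * (K / (N : ℝ) ^ k) := by
      calc ∑ y ∈ Of, ∫ u in (0 : ℝ)..1, Real.cos (th (φ 0) q x u - th (φ 0) q y u)
          ≤ ∑ y ∈ Of, (K / (N : ℝ) ^ k) := by
            refine Finset.sum_le_sum (fun y hy => ?_)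
            obtain ⟨hyP, hy2⟩ := Finset.mem_filter.mp hy
            push Not at hy2
            exact (le_abs_self _).trans (hoff N hN T hT0 hT φ hφ q x y (hmem x hx) (hmem y hyP) hy2)
        _ = Of.card * (K / (N : ℝ) ^ k) := by rw [Finset.sum_const, nsmul_eq_mul]
        _ ≤ P'.card * (K / (N : ℝ) ^ k) := by
            have : (Of.card : ℝ) ≤ P'.card := by exact_mod_cast Finset.card_filter_le _ _
            gcongr
        _ ≤ _ := by gcongr
    exact add_le_add hA hB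
  refine (Finset.sum_le_sum hone).trans ?_
  rw [Finset.sum_const, nsmul_eq_mul, hcardP]
  apply le_of_eq
  have hNk : (N : ℝ) ^ k ≠ 0 := by positivity
  rw [mul_pow]
  field_simp

/-- One sum, with a very small exceptional set. -/
theorem single (ε : ℝ) (hε : 0 < ε) (B : ℕ) : ∃ (A C P : ℕ), ∀ (β : ℝ), (∀ m : ℕ, β ≠ m) →
    ∃ (c0 K : ℝ), 0 < c0 ∧ 0 < K ∧ ∀ N : ℕ, 1 ≤ N → ∀ T : ℝ, 0 < T →
      (N : ℝ) ^ A ≤ T * (N : ℝ) ^ β →
      ∀ φ : ℕ → ℝ → ℝ, Near β T c0 C P N φ →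
      ∀ (q : ℕ → ℝ) (N1 N2 : ℕ), N ≤ N1 → N2 ≤ 2 * N → N1 ≤ N2 →
      volume {u : ℝ | u ∈ Icc (0 : ℝ) 1 ∧
        ((Finset.Icc N1 N2).card : ℝ) ^ (1 / 2 : ℝ) * (N : ℝ) ^ ε / 2 <
        ‖ES (φ 0) q (Finset.Icc N1 N2) u‖} ≤ ENNReal.ofReal (K / (N : ℝ) ^ B) := by
  obtain ⟨k0, hk0⟩ := exists_nat_ge ((B : ℝ) / (2 * ε))
  set k := k0 + 1 with hk
  have hkε : (B : ℝ) ≤ 2 * k * ε := by
    have h1 : (B : ℝ) / (2 * ε) ≤ (k : ℝ) := by
      rw [hk]
      push_cast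
      linarith
    rw [div_le_iff₀ (by positivity)] at h1
    linarith
  obtain ⟨A, C, P, hmom0⟩ := moment k (by omega)
  refine ⟨A, C, P, fun β hβ => ?_⟩
  obtain ⟨c0, K, hc0, hK, hmom⟩ := hmom0 β hβ
  refine ⟨c0, 2 ^ (2 * k) * K, hc0, by positivity,
    fun N hN T hT0 hT φ hφ q N1 N2 h1 h2 h12 => ?_⟩
  have hN' : (1 : ℝ) ≤ N := by exact_mod_cast hN
  have hN0 : (0 : ℝ) < N := by linarith
  set X : ℝ := ((Finset.Icc N1 N2).card : ℝ) with hX
  have hX0 : 0 < X := by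
    rw [hX, Nat.card_Icc]
    have : 0 < N2 + 1 - N1 := by omega
    exact_mod_cast this
  set V : ℝ := X ^ (1 / 2 : ℝ) * (N : ℝ) ^ ε with hV
  have hV0 : 0 < V := by positivity
  have hVk : X ^ k * (N : ℝ) ^ B ≤ 2 ^ (2 * k) * (V / 2) ^ (2 * k) := by
    rw [← mul_pow, mul_div_cancel₀ _ (by norm_num : (2 : ℝ) ≠ 0), hV, mul_pow]
    have e1 : (X ^ (1 / 2 : ℝ)) ^ (2 * k) = X ^ k := by
      rw [pow_mul, ← Real.rpow_natCast (X ^ (1 / 2 : ℝ)) 2, ← Real.rpow_mul hX0.le]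
      norm_num
    have e2 : (N : ℝ) ^ B ≤ ((N : ℝ) ^ ε) ^ (2 * k) := by
      rw [← Real.rpow_natCast ((N : ℝ) ^ ε), ← Real.rpow_mul hN0.le, ← Real.rpow_natCast (N : ℝ) B]
      apply Real.rpow_le_rpow_of_exponent_le hN'
      push_cast
      linarith
    rw [e1]
    gcongr
  have hc : ContinuousOn (fun u => ‖ES (φ 0) q (Finset.Icc N1 N2) u‖ ^ (2 * k)) (Icc 0 1) := by
    refine ContinuousOn.pow (ContinuousOn.norm ?_) _
    unfold ES
    refine continuousOn_finsetSum _ (fun n hn => ?_)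
    obtain ⟨hn1, hn2⟩ := Finset.mem_Icc.mp hn
    refine Complex.continuous_exp.comp_continuousOn ?_
    refine ContinuousOn.mul continuousOn_const ?_
    exact Complex.continuous_ofReal.comp_continuousOn
      ((f_cont hφ (h1.trans hn1) (hn2.trans h2)).add continuousOn_const)
  have hint : Integrable (fun u => ‖ES (φ 0) q (Finset.Icc N1 N2) u‖ ^ (2 * k))
      (volume.restrict (Icc 0 1)) := hc.integrableOn_Icc
  have hmk := mul_meas_ge_le_integral_of_nonneg (μ := volume.restrict (Icc (0 : ℝ) 1))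
    (f := fun u => ‖ES (φ 0) q (Finset.Icc N1 N2) u‖ ^ (2 * k))
    (Filter.Eventually.of_forall (fun u => by
      show (0 : ℝ) ≤ ‖ES (φ 0) q (Finset.Icc N1 N2) u‖ ^ (2 * k)
      positivity)) hint ((V / 2) ^ (2 * k))
  rw [integral_Icc_eq_integral_Ioc, ← intervalIntegral.integral_of_le zero_le_one] at hmk
  have h3 := hmk.trans (hmom N hN T hT0 hT φ hφ q N1 N2 h1 h2)
  have : IsFiniteMeasure (volume.restrict (Icc (0 : ℝ) 1)) :=
    ⟨by rw [Measure.restrict_apply_univ]; exact measure_Icc_lt_top⟩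
  have hsub : {u : ℝ | u ∈ Icc (0 : ℝ) 1 ∧ V / 2 < ‖ES (φ 0) q (Finset.Icc N1 N2) u‖} ⊆
      {u | (V / 2) ^ (2 * k) ≤ ‖ES (φ 0) q (Finset.Icc N1 N2) u‖ ^ (2 * k)} ∩ Icc 0 1 := by
    rintro u ⟨hu, hu2⟩
    exact ⟨pow_le_pow_left₀ (by positivity) hu2.le _, hu⟩
  refine (measure_mono hsub).trans ?_
  rw [← Measure.restrict_apply' measurableSet_Icc, ← ofReal_measureReal]
  apply ENNReal.ofReal_le_ofReal
  have hm0 : 0 ≤ (volume.restrict (Icc (0 : ℝ) 1)).real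
    {u | (V / 2) ^ (2 * k) ≤ ‖ES (φ 0) q (Finset.Icc N1 N2) u‖ ^ (2 * k)} := measureReal_nonneg
  generalize (volume.restrict (Icc (0 : ℝ) 1)).real
    {u | (V / 2) ^ (2 * k) ≤ ‖ES (φ 0) q (Finset.Icc N1 N2) u‖ ^ (2 * k)} = m at h3 hm0 ⊢
  have h5 : 0 < (N : ℝ) ^ B := by positivity
  have h6 : 0 < X ^ k := by positivity
  rw [le_div_iff₀ h5]
  have h7 : X ^ k * (m * (N : ℝ) ^ B) ≤ X ^ k * (2 ^ (2 * k) * K) := by
    calc X ^ k * (m * (N : ℝ) ^ B) = X ^ k * (N : ℝ) ^ B * m := by ring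
      _ ≤ 2 ^ (2 * k) * (V / 2) ^ (2 * k) * m := mul_le_mul_of_nonneg_right hVk hm0
      _ = 2 ^ (2 * k) * ((V / 2) ^ (2 * k) * m) := by ring
      _ ≤ 2 ^ (2 * k) * (K * X ^ k) := by gcongr
      _ = _ := by ring
  exact le_of_mul_le_mul_left h7 h6

end Pool.Agent.Y933.KI
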