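import Mathlib

/-!
# A lower bound for power sums with weights
-/

set_option autoImplicit false

namespace Pool.Agent.Y933.KI

lemma vand (y : ℕ → ℝ) {δ : ℝ} (hδ : 0 < δ) {j0 : ℕ} (s : Finset ℕ) :
    j0 ∉ s → (∀ j ∈ s, |y j| ≤ 1) → (∀ j ∈ s, δ ≤ |y j0 - y j|) → ∀ w : ℕ → ℝ,
    ∃ i ≤ s.card, |w j0| * (δ / 2) ^ s.card ≤ |∑ j ∈ insert j0 s, w j * y j ^ i| := by
  induction s using Finset.induction_on with
  | empty =>
    intro _ _ _ w
    refine ⟨0, le_rfl, ?_⟩
    simp
  | insert a s ha ih =>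
    intro h1 h2 h3 w
    have h1s : j0 ∉ s := fun h => h1 (Finset.mem_insert_of_mem h)
    have hja : j0 ≠ a := fun h => h1 (h ▸ Finset.mem_insert_self _ _)
    obtain ⟨i, hi, hi2⟩ := ih h1s (fun j hj => h2 j (Finset.mem_insert_of_mem hj))
      (fun j hj => h3 j (Finset.mem_insert_of_mem hj)) (fun j => w j * (y j - y a))
    rw [Finset.card_insert_of_notMem ha]
    set V : ℕ → ℝ := fun i => ∑ j ∈ insert j0 (insert a s), w j * y j ^ i with hV
    have e1 : ∑ j ∈ insert j0 s, w j * (y j - y a) * y j ^ i = V (i + 1) - y a * V i := by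
      have e2 : V (i + 1) - y a * V i =
          ∑ j ∈ insert j0 (insert a s), w j * (y j - y a) * y j ^ i := by
        rw [hV]
        simp only
        rw [Finset.mul_sum, ← Finset.sum_sub_distrib]
        refine Finset.sum_congr rfl (fun j _ => ?_)
        ring
      rw [e2, Finset.insert_comm, Finset.sum_insert (s := insert j0 s) (a := a)]
      · rw [sub_self, mul_zero, zero_mul, zero_add]
      · rw [Finset.mem_insert, not_or]
        exact ⟨hja.symm, ha⟩
    have h4 : |y a| ≤ 1 := h2 a (Finset.mem_insert_self _ _)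
    have h5 : δ ≤ |y j0 - y a| := h3 a (Finset.mem_insert_self _ _)
    have h6 : |w j0| * (δ / 2) ^ (s.card + 1) * 2 ≤ |V (i + 1)| + |V i| := by
      calc |w j0| * (δ / 2) ^ (s.card + 1) * 2 = |w j0| * δ * (δ / 2) ^ s.card := by
            rw [pow_succ]; ring
        _ ≤ |w j0| * |y j0 - y a| * (δ / 2) ^ s.card := by gcongr
        _ = |w j0 * (y j0 - y a)| * (δ / 2) ^ s.card := by rw [abs_mul]
        _ ≤ |∑ j ∈ insert j0 s, w j * (y j - y a) * y j ^ i| := hi2
        _ = |V (i + 1) - y a * V i| := by rw [e1]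
        _ ≤ |V (i + 1)| + |y a * V i| := abs_sub _ _
        _ ≤ |V (i + 1)| + |V i| := by
            rw [abs_mul]
            have := mul_le_mul_of_nonneg_right h4 (abs_nonneg (V i))
            linarith
    rcases le_total |V i| |V (i + 1)| with h | h
    · exact ⟨i + 1, by omega, by show _ ≤ |V (i + 1)|; linarith⟩
    · exact ⟨i, by omega, by show _ ≤ |V i|; linarith⟩

end Pool.Agent.Y933.KI
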